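import Pool.Agent.R693.SU.Stm

set_option autoImplicit false

namespace Pool.Agent.R693.SU.AUTown

open Cardinal

theorem two_alg (R K L : Type) [Field R] [Field K] [Field L] [Algebra R K] [Algebra R L]
    [IsAlgClosed K] [IsAlgClosed L] (hR : #R ≤ ℵ₀) (hK : ℵ₀ < #K) (hKL : #K = #L) :
    ∃ σ : K ≃+* L, ∀ r, σ (algebraMap R K r) = algebraMap R L r := by
  obtain ⟨ι, v, hv⟩ := exists_isTranscendenceBasis' R K
  obtain ⟨κ, w, hw⟩ := exists_isTranscendenceBasis' R L
  have h1 := IsAlgClosed.cardinal_eq_cardinal_transcendence_basis_of_aleph0_lt' v hv hR hK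
  have h2 := IsAlgClosed.cardinal_eq_cardinal_transcendence_basis_of_aleph0_lt' w hw hR (hKL ▸ hK)
  have h3 : #ι = #κ := by rw [← h1, ← h2, hKL]
  obtain ⟨e0⟩ := Cardinal.eq.1 h3
  letI := IsAlgClosed.isAlgClosure_of_transcendence_basis v hv
  letI := IsAlgClosed.isAlgClosure_of_transcendence_basis w hw
  let e : Algebra.adjoin R (Set.range v) ≃ₐ[R] Algebra.adjoin R (Set.range w) :=
    (hv.1.aevalEquiv.symm.trans (MvPolynomial.renameEquiv R e0)).trans hw.1.aevalEquiv
  refine ⟨IsAlgClosure.equivOfEquiv K L e.toRingEquiv, fun r => ?_⟩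
  have h4 : algebraMap R K r = algebraMap (Algebra.adjoin R (Set.range v)) K
      (algebraMap R (Algebra.adjoin R (Set.range v)) r) := rfl
  rw [h4, IsAlgClosure.equivOfEquiv_algebraMap]
  have h5 : e.toRingEquiv (algebraMap R (Algebra.adjoin R (Set.range v)) r) =
      algebraMap R (Algebra.adjoin R (Set.range w)) r := e.commutes r
  rw [h5]
  rfl

theorem two_homs (R : Type) [Field R] (hR : #R ≤ ℵ₀) (i1 i2 : R →+* ℂ) :
    ∃ σ : ℂ ≃+* ℂ, ∀ r, σ (i1 r) = i2 r := by
  have h := @two_alg R ℂ ℂ _ _ _ i1.toAlgebra i2.toAlgebra _ _ hR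
    (by rw [Cardinal.mk_complex]; exact Cardinal.aleph0_lt_continuum) rfl
  exact h

theorem piece : S_AUT := by
  intro z hz
  by_cases halg : IsAlgebraic ℚ z
  · by_contra hno
    have hint : IsIntegral ℚ z := halg.isIntegral
    have hirr := minpoly.irreducible hint
    haveI : Fact (Irreducible (minpoly ℚ z)) := ⟨hirr⟩
    have hdeg : 2 ≤ (minpoly ℚ z).natDegree := by
      have hd := minpoly.natDegree_pos hint
      by_contra hlt
      have h1 : (minpoly ℚ z).natDegree = 1 := by omega
      have h2 : z ∈ (algebraMap ℚ ℂ).range := by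
        rw [← minpoly.degree_eq_one_iff]
        rw [Polynomial.degree_eq_natDegree (minpoly.ne_zero hint), h1]; rfl
      obtain ⟨q, hq⟩ := h2
      exact hno ⟨q, by rw [← hq]; rfl⟩
    have hsep : (minpoly ℚ z).Separable := hirr.separable
    have hcard := Polynomial.card_rootSet_eq_natDegree (K := ℂ) hsep (IsAlgClosed.splits _)
    have hw : ∃ w ∈ (minpoly ℚ z).rootSet ℂ, w ≠ z := by
      by_contra hall
      push_neg at hall
      have : Fintype.card ((minpoly ℚ z).rootSet ℂ) ≤ 1 := by
        rw [Fintype.card_le_one_iff]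
        rintro ⟨a, ha⟩ ⟨b, hb⟩
        exact Subtype.ext ((hall a ha).trans (hall b hb).symm)
      omega
    obtain ⟨w, hw, hne⟩ := hw
    have hw0 : Polynomial.aeval w (minpoly ℚ z) = 0 := (Polynomial.mem_rootSet.1 hw).2
    let i1 : AdjoinRoot (minpoly ℚ z) →+* ℂ :=
      AdjoinRoot.lift (algebraMap ℚ ℂ) z (by have := minpoly.aeval ℚ z; rwa [Polynomial.aeval_def] at this)
    let i2 : AdjoinRoot (minpoly ℚ z) →+* ℂ :=
      AdjoinRoot.lift (algebraMap ℚ ℂ) w (by rwa [Polynomial.aeval_def] at hw0)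
    have hc : #(AdjoinRoot (minpoly ℚ z)) ≤ ℵ₀ := by
      refine (Cardinal.mk_le_of_surjective (AdjoinRoot.mk_surjective (g := minpoly ℚ z))).trans ?_
      refine Polynomial.cardinalMk_le_max.trans ?_
      simp
    obtain ⟨σ, hσ⟩ := two_homs _ hc i1 i2
    have h1 := hσ (AdjoinRoot.root _)
    rw [show i1 (AdjoinRoot.root _) = z from AdjoinRoot.lift_root _,
      show i2 (AdjoinRoot.root _) = w from AdjoinRoot.lift_root _, hz σ] at h1
    exact hne h1.symm
  · exfalso
    have ht : Transcendental ℚ z := halg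
    have inj1 : Function.Injective (Polynomial.aeval (R := ℚ) z) :=
      transcendental_iff_injective.1 ht
    have ht2 : Transcendental ℚ (z + 1) := by
      intro h
      apply halg
      have := h.sub (isAlgebraic_one (R := ℚ) (A := ℂ))
      simpa using this
    have inj2 : Function.Injective (Polynomial.aeval (R := ℚ) (z + 1)) :=
      transcendental_iff_injective.1 ht2
    let i1 : FractionRing (Polynomial ℚ) →+* ℂ :=
      IsFractionRing.lift (A := Polynomial ℚ) (g := (Polynomial.aeval (R := ℚ) z : Polynomial ℚ →+* ℂ)) inj1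
    let i2 : FractionRing (Polynomial ℚ) →+* ℂ :=
      IsFractionRing.lift (A := Polynomial ℚ) (g := (Polynomial.aeval (R := ℚ) (z + 1) : Polynomial ℚ →+* ℂ)) inj2
    have hc : #(FractionRing (Polynomial ℚ)) ≤ ℵ₀ := by
      refine (IsLocalization.cardinalMk_le (L := FractionRing (Polynomial ℚ))
        (nonZeroDivisors (Polynomial ℚ))).trans ?_
      refine Polynomial.cardinalMk_le_max.trans ?_
      simp
    obtain ⟨σ, hσ⟩ := two_homs _ hc i1 i2
    have h1 := hσ (algebraMap (Polynomial ℚ) _ Polynomial.X)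
    rw [show i1 (algebraMap (Polynomial ℚ) _ Polynomial.X) = z by
        simp [i1, IsFractionRing.lift_algebraMap],
      show i2 (algebraMap (Polynomial ℚ) _ Polynomial.X) = z + 1 by
        simp [i2, IsFractionRing.lift_algebraMap], hz σ] at h1
    have : (1 : ℂ) = 0 := by linear_combination -h1
    exact one_ne_zero this

end Pool.Agent.R693.SU.AUTown
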