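import Pool.Agent.R693.SU.Stm

/-!
# SU, piece AUT: the fixed field of `Aut ℂ` is `ℚ`
-/

set_option autoImplicit false

namespace Pool.Agent.R693.SU

open Polynomial Cardinal

theorem AUT_ext (F K L : Type) [Field F] [Field K] [Field L] [IsAlgClosed K] [IsAlgClosed L]
    [Algebra F K] [Algebra F L] (hF : Cardinal.mk F ≤ ℵ₀) (hK : ℵ₀ < Cardinal.mk K)
    (hKL : Cardinal.mk K = Cardinal.mk L) :
    ∃ σ : K ≃+* L, ∀ f : F, σ (algebraMap F K f) = algebraMap F L f := by
  obtain ⟨s, hs⟩ := exists_isTranscendenceBasis F K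
  obtain ⟨t, ht⟩ := exists_isTranscendenceBasis F L
  have h1 : Cardinal.mk K = Cardinal.mk s :=
    IsAlgClosed.cardinal_eq_cardinal_transcendence_basis_of_aleph0_lt' _ hs hF hK
  have h2 : Cardinal.mk L = Cardinal.mk t :=
    IsAlgClosed.cardinal_eq_cardinal_transcendence_basis_of_aleph0_lt' _ ht hF
    (hKL ▸ hK)
  obtain ⟨e⟩ := Cardinal.eq.1 (h1.symm.trans (hKL.trans h2))
  let _ := IsAlgClosed.isAlgClosure_of_transcendence_basis _ hs
  let _ := IsAlgClosed.isAlgClosure_of_transcendence_basis _ ht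
  let e' := hs.1.aevalEquiv.symm.trans ((MvPolynomial.renameEquiv F e).trans ht.1.aevalEquiv)
  let σ := IsAlgClosure.equivOfEquiv K L e'.toRingEquiv
  refine ⟨σ, fun f => ?_⟩
  have h3 := IsAlgClosure.equivOfEquiv_algebraMap K L e'.toRingEquiv (algebraMap F _ f)
  have h4 : e' (algebraMap F _ f) = algebraMap F _ f := e'.commutes f
  have h5 : e'.toRingEquiv (algebraMap F _ f) = algebraMap F _ f := h4
  rw [h5] at h3
  exact h3

theorem AUT_ext2 (F : Type) [Field F] (hF : Cardinal.mk F ≤ ℵ₀) (i j : F →+* ℂ) :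
    ∃ σ : ℂ ≃+* ℂ, ∀ f : F, σ (i f) = j f :=
  @AUT_ext F ℂ ℂ _ _ _ _ _ i.toAlgebra j.toAlgebra hF
    (by rw [Cardinal.mk_complex]; exact Cardinal.aleph0_lt_continuum) rfl

theorem t_AUT : S_AUT := by
  intro z hz
  by_cases ht : Transcendental ℚ z
  · exfalso
    have hz0 : z ≠ 0 := by
      rintro rfl
      exact ht isAlgebraic_zero
    have ht' : Transcendental ℚ (-z) := fun h => ht (by simpa using h.neg)
    have hi := transcendental_iff_injective.1 ht
    have hj := transcendental_iff_injective.1 ht'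
    have hc : Countable (FractionRing ℚ[X]) := by
      have h0 : Countable ℚ[X] := by
        rw [← Cardinal.mk_le_aleph0_iff]
        refine Polynomial.cardinalMk_le_max.trans (max_le ?_ le_rfl)
        exact Cardinal.mk_le_aleph0
      exact (IsLocalization.mk'_surjective (nonZeroDivisors ℚ[X])).countable
    obtain ⟨σ, hσ⟩ := AUT_ext2 (FractionRing ℚ[X]) (Cardinal.mk_le_aleph0_iff.2 hc)
      (IsFractionRing.lift (g := (aeval z : ℚ[X] →ₐ[ℚ] ℂ).toRingHom) hi)
      (IsFractionRing.lift (g := (aeval (-z) : ℚ[X] →ₐ[ℚ] ℂ).toRingHom) hj)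
    have h1 := hσ (algebraMap ℚ[X] (FractionRing ℚ[X]) X)
    rw [IsFractionRing.lift_algebraMap, IsFractionRing.lift_algebraMap] at h1
    have h2 : σ z = -z := by simpa using h1
    rw [hz σ] at h2
    exact hz0 (self_eq_neg.1 h2)
  · have ha : IsAlgebraic ℚ z := by
      rwa [Transcendental, not_not] at ht
    have hint : IsIntegral ℚ z := ha.isIntegral
    by_contra hq
    have hirr := minpoly.irreducible hint
    have : Fact (Irreducible (minpoly ℚ z)) := ⟨hirr⟩
    have hdeg : (minpoly ℚ z).natDegree ≠ 1 := by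
      intro h
      rw [minpoly.natDegree_eq_one_iff] at h
      obtain ⟨q, hq'⟩ := h
      exact hq ⟨q, by simpa using hq'⟩
    have hpos : 0 < (minpoly ℚ z).natDegree := minpoly.natDegree_pos hint
    have hcard : Fintype.card ((minpoly ℚ z).rootSet ℂ) = (minpoly ℚ z).natDegree :=
      Polynomial.card_rootSet_eq_natDegree hirr.separable (IsAlgClosed.splits _)
    have hzr : z ∈ (minpoly ℚ z).rootSet ℂ := by
      rw [Polynomial.mem_rootSet]
      exact ⟨minpoly.ne_zero hint, minpoly.aeval ℚ z⟩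
    have h1 : 1 < Fintype.card ((minpoly ℚ z).rootSet ℂ) := by omega
    obtain ⟨⟨w, hw⟩, hwz⟩ := Fintype.exists_ne_of_one_lt_card h1 ⟨z, hzr⟩
    have hwz' : w ≠ z := fun h => hwz (Subtype.ext h)
    rw [Polynomial.mem_rootSet] at hw
    have hc : Countable (AdjoinRoot (minpoly ℚ z)) := by
      have h0 : Countable ℚ[X] := by
        rw [← Cardinal.mk_le_aleph0_iff]
        refine Polynomial.cardinalMk_le_max.trans (max_le ?_ le_rfl)
        exact Cardinal.mk_le_aleph0
      exact (AdjoinRoot.mk_surjective (g := minpoly ℚ z)).countable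
    obtain ⟨σ, hσ⟩ := AUT_ext2 (AdjoinRoot (minpoly ℚ z)) (Cardinal.mk_le_aleph0_iff.2 hc)
      (AdjoinRoot.lift (algebraMap ℚ ℂ) z (minpoly.aeval ℚ z))
      (AdjoinRoot.lift (algebraMap ℚ ℂ) w hw.2)
    have h2 := hσ (AdjoinRoot.root (minpoly ℚ z))
    have e1 : (AdjoinRoot.lift (algebraMap ℚ ℂ) z (minpoly.aeval ℚ z))
        (AdjoinRoot.root (minpoly ℚ z)) = z := AdjoinRoot.lift_root _
    have e2 : (AdjoinRoot.lift (algebraMap ℚ ℂ) w hw.2)
        (AdjoinRoot.root (minpoly ℚ z)) = w := AdjoinRoot.lift_root _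
    have h3 : σ z = w := (congrArg σ e1).symm.trans (h2.trans e2)
    exact hwz' (h3.symm.trans (hz σ))

end Pool.Agent.R693.SU
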