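import Pool.Agent.R693.SU.Stm

set_option autoImplicit false

open Matrix

namespace Pool.Agent.R693.SU

universe u

variable {G : Type u} [Group G]

theorem Irr.transfer {n : ℕ} {ρ ρ' : G →* GL (Fin n) ℂ} (h : Irr ρ) (σ : ℂ ≃+* ℂ)
    (e : (Fin n → ℂ) ≃+ (Fin n → ℂ)) (he : ∀ (c : ℂ) w, e (c • w) = σ c • e w)
    (hi : ∀ g w, e ((ρ g : Matrix (Fin n) (Fin n) ℂ) *ᵥ w) =
      (ρ' g : Matrix (Fin n) (Fin n) ℂ) *ᵥ e w) : Irr ρ' := by
  refine ⟨h.1, fun W hW => ?_⟩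
  let W' : Submodule ℂ (Fin n → ℂ) :=
    { carrier := {w | e w ∈ W}
      add_mem' := by
        intro a b ha hb
        simp only [Set.mem_setOf_eq, map_add] at *
        exact W.add_mem ha hb
      zero_mem' := by simp
      smul_mem' := by
        intro c w hw
        simp only [Set.mem_setOf_eq, he] at *
        exact W.smul_mem _ hw }
  have hW' : ∀ g, ∀ w ∈ W', (ρ g : Matrix (Fin n) (Fin n) ℂ) *ᵥ w ∈ W' := by
    intro g w hw
    change e _ ∈ W
    rw [hi]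
    exact hW g _ hw
  rcases h.2 W' hW' with h0 | h1
  · left
    rw [Submodule.eq_bot_iff]
    intro w hw
    have : e.symm w ∈ W' := by
      change e (e.symm w) ∈ W
      simpa using hw
    rw [h0, Submodule.mem_bot] at this
    have h2 := congrArg e this
    simpa using h2
  · right
    rw [Submodule.eq_top_iff']
    intro w
    have : e.symm w ∈ W' := by rw [h1]; trivial
    have h2 : e (e.symm w) ∈ W := this
    simpa using h2

theorem irr_one (ρ : G →* GL (Fin 1) ℂ) : Irr ρ := by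
  refine ⟨one_pos, fun W _ => ?_⟩
  by_cases h : W = ⊥
  · exact Or.inl h
  · right
    obtain ⟨w, hw, hw0⟩ := (Submodule.ne_bot_iff W).1 h
    have h0 : w 0 ≠ 0 := by
      intro h1
      apply hw0
      ext i
      rw [Subsingleton.elim i 0, h1]
      rfl
    rw [Submodule.eq_top_iff']
    intro v
    have : v = (v 0 / w 0) • w := by
      ext i
      rw [Subsingleton.elim i 0]
      simp [h0]
    rw [this]
    exact W.smul_mem _ hw

theorem char_triv (h : PropU G) (χ : G →* ℂˣ) (g : G) : χ g = 1 := by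
  obtain ⟨ρ, _, hu⟩ := h 1 le_rfl
  let s : ℂˣ →* GL (Fin 1) ℂ := Units.map (Matrix.scalar (Fin 1)).toMonoidHom
  obtain ⟨A, hA⟩ := hu 1 (irr_one _)
  obtain ⟨B, hB⟩ := hu (s.comp χ) (irr_one _)
  have h1 : ρ g = 1 := by
    have := hA g
    rw [MonoidHom.one_apply] at this
    have h2 : A⁻¹ * 1 * A = ρ g := by rw [this]; group
    rw [← h2]; group
  have h2 : s (χ g) = 1 := by
    have := hB g
    rw [h1] at this
    simpa using this
  have h3 := congrArg (fun M : GL (Fin 1) ℂ => (M : Matrix (Fin 1) (Fin 1) ℂ) 0 0) h2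
  ext
  simpa [s] using h3

theorem det_one (h : PropU G) {n : ℕ} (ρ : G →* GL (Fin n) ℂ) (g : G) :
    (ρ g : Matrix (Fin n) (Fin n) ℂ).det = 1 := by
  have := char_triv h ((Matrix.GeneralLinearGroup.det).comp ρ) g
  have h2 := congrArg (fun z : ℂˣ => (z : ℂ)) this
  simpa using h2

/-- The coordinatewise action of a field automorphism. -/
def eσ (n : ℕ) (σ : ℂ ≃+* ℂ) : (Fin n → ℂ) ≃+ (Fin n → ℂ) where
  toFun w := fun i => σ (w i)
  invFun w := fun i => σ.symm (w i)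
  left_inv w := by ext i; simp
  right_inv w := by ext i; simp
  map_add' a b := by ext i; simp

theorem irr_twist {n : ℕ} {ρ : G →* GL (Fin n) ℂ} (h : Irr ρ) (σ : ℂ ≃+* ℂ) :
    Irr ((Matrix.GeneralLinearGroup.map (σ : ℂ →+* ℂ)).comp ρ) := by
  refine h.transfer σ (eσ n σ) ?_ ?_
  · intro c w
    ext i
    simp [eσ]
  · intro g w
    ext i
    simp [eσ, Matrix.mulVec, dotProduct, map_sum]

theorem trace_rat (hA : S_AUT) (h : PropU G) {ρ : G →* GL (Fin 2) ℂ} (hρ : Irr ρ) (g : G) :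
    ∃ q : ℚ, (ρ g : Matrix (Fin 2) (Fin 2) ℂ).trace = (q : ℂ) := by
  obtain ⟨ρ0, _, hu⟩ := h 2 (by norm_num)
  obtain ⟨A, hA'⟩ := hu ρ hρ
  suffices hs : ∀ σ : ℂ ≃+* ℂ, σ ((ρ g : Matrix (Fin 2) (Fin 2) ℂ).trace) =
      (ρ g : Matrix (Fin 2) (Fin 2) ℂ).trace by
    obtain ⟨q, hq⟩ := hA _ hs
    exact ⟨q, hq.symm⟩
  intro σ
  obtain ⟨B, hB⟩ := hu _ (irr_twist hρ σ)
  have h1 : ∀ C : GL (Fin 2) ℂ, ((C * ρ0 g * C⁻¹ : GL (Fin 2) ℂ) : Matrix (Fin 2) (Fin 2) ℂ).trace =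
      (ρ0 g : Matrix (Fin 2) (Fin 2) ℂ).trace := by
    intro C
    rw [Units.val_mul, Matrix.trace_mul_comm, ← Units.val_mul, ← mul_assoc, inv_mul_cancel, one_mul]
  have h2 := congrArg (fun M : GL (Fin 2) ℂ => (M : Matrix (Fin 2) (Fin 2) ℂ).trace) (hB g)
  simp only [h1] at h2
  have h3 := congrArg (fun M : GL (Fin 2) ℂ => (M : Matrix (Fin 2) (Fin 2) ℂ).trace) (hA' g)
  simp only [h1] at h3
  rw [← h3] at h2
  have h4 : ((((Matrix.GeneralLinearGroup.map (σ : ℂ →+* ℂ)).comp ρ) g : GL (Fin 2) ℂ) :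
      Matrix (Fin 2) (Fin 2) ℂ).trace = σ ((ρ g : Matrix (Fin 2) (Fin 2) ℂ).trace) := by
    simp [Matrix.trace, Matrix.diag, map_sum]
  rw [← h4]
  exact h2

/-- The linear automorphism of an invertible matrix. -/
noncomputable def eA (A : GL (Fin 2) ℂ) : (Fin 2 → ℂ) ≃+ (Fin 2 → ℂ) where
  toFun w := (A : Matrix (Fin 2) (Fin 2) ℂ) *ᵥ w
  invFun w := ((A⁻¹ : GL (Fin 2) ℂ) : Matrix (Fin 2) (Fin 2) ℂ) *ᵥ w
  left_inv w := by
    change ((A⁻¹ : GL (Fin 2) ℂ) : Matrix (Fin 2) (Fin 2) ℂ) *ᵥ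
      ((A : Matrix (Fin 2) (Fin 2) ℂ) *ᵥ w) = w
    rw [Matrix.mulVec_mulVec, ← Units.val_mul, inv_mul_cancel, Units.val_one, Matrix.one_mulVec]
  right_inv w := by
    change (A : Matrix (Fin 2) (Fin 2) ℂ) *ᵥ
      (((A⁻¹ : GL (Fin 2) ℂ) : Matrix (Fin 2) (Fin 2) ℂ) *ᵥ w) = w
    rw [Matrix.mulVec_mulVec, ← Units.val_mul, mul_inv_cancel, Units.val_one, Matrix.one_mulVec]
  map_add' a b := by simp [Matrix.mulVec_add]

theorem irr_conj {ρ ρ' : G →* GL (Fin 2) ℂ} (h : Irr ρ) (A : GL (Fin 2) ℂ)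
    (hA : ∀ g, ρ' g = A * ρ g * A⁻¹) : Irr ρ' := by
  refine h.transfer (RingEquiv.refl ℂ) (eA A) ?_ ?_
  · intro c w
    exact Matrix.mulVec_smul _ c w
  · intro g w
    simp only [eA, AddEquiv.coe_mk, Equiv.coe_fn_mk, Matrix.mulVec_mulVec, ← Units.val_mul, hA]
    congr 2
    group

theorem not_irr_triv {ρ : G →* GL (Fin 2) ℂ} (h : Irr ρ) (h1 : ∀ g, ρ g = 1) : False := by
  have := h.2 (Submodule.span ℂ {(Pi.single 0 1 : Fin 2 → ℂ)}) (by
    intro g w hw
    rw [h1]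
    simpa using hw)
  rcases this with h0 | h2
  · rw [Submodule.span_singleton_eq_bot] at h0
    have := congrFun h0 0
    simp at this
  · have h3 : (Pi.single 1 1 : Fin 2 → ℂ) ∈ Submodule.span ℂ {(Pi.single 0 1 : Fin 2 → ℂ)} := by
      rw [h2]; trivial
    obtain ⟨c, hc⟩ := Submodule.mem_span_singleton.1 h3
    have := congrFun hc 1
    simp at this

theorem final (hAut : S_AUT) (hP : S_PERF.{u}) (hQ : S_QB.{u}) (hL : S_LEG) (hLoc : S_LOC.{u})
    (hS : S_SPL) (hH : S_HOM.{u}) : S_FINAL.{u} := by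
  intro G _ h
  have hperf : commutator G = ⊤ := hP G (char_triv h)
  refine ⟨hperf, ?_⟩
  obtain ⟨ρ, hρ, hu⟩ := h 2 (by norm_num)
  obtain ⟨a, b, x, y, hq, hspan⟩ := hQ G ρ hρ (det_one h ρ) (trace_rat hAut h hρ)
  have hiso : ¬ ∀ x y z : ℚ, z ^ 2 = a * x ^ 2 + b * y ^ 2 → x = 0 ∧ y = 0 ∧ z = 0 := by
    intro han
    obtain ⟨p, hp, hloc⟩ := hL a b hq.ha hq.hb han
    obtain ⟨f, hf1, hf2⟩ := hH ℚ_[p] G ρ a b x y hq (det_one h ρ) hspan
    have h1 : ∀ g, f g = 1 := hLoc p (a : ℚ_[p]) (b : ℚ_[p]) (by exact_mod_cast hq.ha)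
      (by exact_mod_cast hq.hb) hloc G hperf f hf1
    exact not_irr_triv hρ (fun g => hf2 g (h1 g))
  push_neg at hiso
  obtain ⟨r, s, z, hz, hne⟩ := hiso
  obtain ⟨A, hA⟩ := hS a b x y hq r s z (by rintro ⟨h1, h2, h3⟩; exact hne h1 h2 h3) hz
  have hR : ∀ g, ∃ R : Matrix (Fin 2) (Fin 2) ℚ,
      (A⁻¹ : GL (Fin 2) ℂ).val * (ρ g).val * A.val = R.map (algebraMap ℚ ℂ) := by
    intro g
    obtain ⟨α, β, γ, δ, hg⟩ := hspan g
    rw [hg]
    exact hA α β γ δ
  choose R hR using hR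
  have hinj : Function.Injective (fun M : Matrix (Fin 2) (Fin 2) ℚ => M.map (algebraMap ℚ ℂ)) :=
    Matrix.map_injective (algebraMap ℚ ℂ).injective
  have hdet : ∀ g, (R g).det = 1 := by
    intro g
    have h1 : (algebraMap ℚ ℂ) (R g).det = 1 := by
      rw [RingHom.map_det]
      change ((R g).map (algebraMap ℚ ℂ)).det = 1
      rw [← hR, Matrix.det_mul, Matrix.det_mul, det_one h ρ g, mul_one, ← Matrix.det_mul,
        ← Units.val_mul, inv_mul_cancel, Units.val_one, Matrix.det_one]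
    exact (algebraMap ℚ ℂ).injective (by rw [h1, map_one])
  let φ : G →* SpecialLinearGroup (Fin 2) ℚ :=
    { toFun := fun g => ⟨R g, hdet g⟩
      map_one' := by
        apply Subtype.ext
        apply hinj
        change (R 1).map (algebraMap ℚ ℂ) = (1 : Matrix (Fin 2) (Fin 2) ℚ).map (algebraMap ℚ ℂ)
        rw [← hR, map_one, Units.val_one, mul_one, ← Units.val_mul, inv_mul_cancel, Units.val_one]
        simp
      map_mul' := by
        intro g k
        apply Subtype.ext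
        apply hinj
        change (R (g * k)).map (algebraMap ℚ ℂ) = (R g * R k).map (algebraMap ℚ ℂ)
        rw [Matrix.map_mul, ← hR, ← hR, ← hR, map_mul]
        simp only [← Units.val_mul]
        congr 1
        group }
  have hφ : ∀ g, ((SpecialLinearGroup.toGL.comp
      (SpecialLinearGroup.map (algebraMap ℚ ℂ))).comp φ) g = A⁻¹ * ρ g * (A⁻¹)⁻¹ := by
    intro g
    apply Units.ext
    rw [inv_inv, Units.val_mul, Units.val_mul, hR]
    rfl
  refine ⟨φ, irr_conj hρ A⁻¹ hφ, fun ρ' hρ' => ?_⟩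
  obtain ⟨B, hB⟩ := hu ρ' hρ'
  have hk : ∀ g, φ g = 1 ↔ ρ g = 1 := by
    intro g
    constructor
    · intro h1
      have h2 := hφ g
      have h3 : A⁻¹ * ρ g * (A⁻¹)⁻¹ = 1 := by
        rw [← h2]
        simp [h1]
      have h4 : ρ g = A * (A⁻¹ * ρ g * (A⁻¹)⁻¹) * A⁻¹ := by group
      rw [h4, h3]; group
    · intro h1
      apply Subtype.ext
      apply hinj
      change (R g).map (algebraMap ℚ ℂ) = (1 : Matrix (Fin 2) (Fin 2) ℚ).map (algebraMap ℚ ℂ)
      rw [← hR, h1, Units.val_one, mul_one, ← Units.val_mul, inv_mul_cancel, Units.val_one]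
      simp
  ext g
  rw [MonoidHom.mem_ker, MonoidHom.mem_ker, hk, hB]
  constructor
  · intro h1
    rw [h1]; group
  · intro h1
    have h4 : ρ g = B⁻¹ * (B * ρ g * B⁻¹) * B := by group
    rw [h4, h1]; group

end Pool.Agent.R693.SU
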