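import Pool.Agent.R693.SU.Stm

set_option autoImplicit false

open Matrix

namespace Pool.Agent.R693.SU.HOMown

universe u

abbrev M2 := Matrix (Fin 2) (Fin 2) ℂ

variable {a b : ℚ} {x y : M2}

lemma yx (h : QB a b x y) : y * x = -(x * y) := by rw [h.hxy, neg_neg]

lemma haC (h : QB a b x y) : (a : ℂ) ≠ 0 := by exact_mod_cast h.ha
lemma hbC (h : QB a b x y) : (b : ℂ) ≠ 0 := by exact_mod_cast h.hb

lemma half {z : ℂ} (h : z = -z) : z = 0 := by
  have : (2 : ℂ) * z = 0 := by linear_combination h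
  simpa using this

lemma txy (h : QB a b x y) : (x * y).trace = 0 := by
  apply half
  conv_lhs => rw [h.hxy]
  rw [Matrix.trace_neg, Matrix.trace_mul_comm]

lemma tx (h : QB a b x y) : x.trace = 0 := by
  have h1 : (x * y * y).trace = (b : ℂ) * x.trace := by
    rw [mul_assoc, h.hy]; simp
  have h2 : (x * y * y).trace = -(x * y * y).trace := by
    conv_lhs => rw [h.hxy]
    rw [neg_mul, Matrix.trace_neg, mul_assoc, Matrix.trace_mul_comm]
  have h3 := half h2
  rw [h1] at h3
  exact (mul_eq_zero.1 h3).resolve_left (hbC h)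

lemma ty (h : QB a b x y) : y.trace = 0 := by
  have h1 : (x * x * y).trace = (a : ℂ) * y.trace := by
    rw [h.hx]; simp
  have h2 : (x * x * y).trace = -(x * x * y).trace := by
    conv_lhs => rw [mul_assoc, h.hxy]
    rw [mul_neg, Matrix.trace_neg, ← mul_assoc, Matrix.trace_mul_comm, ← mul_assoc]
  have h3 := half h2
  rw [h1] at h3
  exact (mul_eq_zero.1 h3).resolve_left (haC h)

lemma xyx (h : QB a b x y) : x * y * x = -((a : ℂ) • y) := by
  rw [mul_assoc, yx h, mul_neg, ← mul_assoc, h.hx]; simp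

lemma xyy (h : QB a b x y) : x * y * y = (b : ℂ) • x := by rw [mul_assoc, h.hy]; simp

lemma xxy (h : QB a b x y) : x * (x * y) = (a : ℂ) • y := by rw [← mul_assoc, h.hx]; simp

lemma yxy (h : QB a b x y) : y * (x * y) = -((b : ℂ) • x) := by
  rw [← mul_assoc, yx h, neg_mul, xyy h]

lemma xyxy (h : QB a b x y) : x * y * (x * y) = -(((a : ℂ) * b) • (1 : M2)) := by
  rw [← mul_assoc, xyx h, neg_mul, Matrix.smul_mul, h.hy, smul_smul]

lemma tr0 (h : QB a b x y) (α β γ δ : ℚ) : (qel x y α β γ δ).trace = 2 * α := by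
  simp only [qel, Matrix.trace_add, Matrix.trace_smul, tx h, ty h, txy h]
  simp
  ring

lemma tr1 (h : QB a b x y) (α β γ δ : ℚ) : (qel x y α β γ δ * x).trace = 2 * a * β := by
  simp only [qel, add_mul, Matrix.smul_mul, one_mul, Matrix.trace_add,
      Matrix.trace_smul, tx h, ty h, h.hx, yx h, xyx h, Matrix.trace_neg, txy h]
  simp
  ring

lemma tr2 (h : QB a b x y) (α β γ δ : ℚ) : (qel x y α β γ δ * y).trace = 2 * b * γ := by
  simp only [qel, add_mul, Matrix.smul_mul, one_mul, Matrix.trace_add,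
      Matrix.trace_smul, tx h, ty h, h.hy, xyy h, Matrix.trace_neg, txy h]
  simp
  ring

lemma tr3 (h : QB a b x y) (α β γ δ : ℚ) :
    (qel x y α β γ δ * (x * y)).trace = -(2 * a * b * δ) := by
  simp only [qel, add_mul, Matrix.smul_mul, one_mul, Matrix.trace_add,
      Matrix.trace_smul, tx h, ty h, xxy h, yxy h, xyxy h, Matrix.trace_neg, txy h]
  simp
  ring

lemma qel_inj (h : QB a b x y) {α β γ δ α' β' γ' δ' : ℚ}
    (he : qel x y α β γ δ = qel x y α' β' γ' δ') : α = α' ∧ β = β' ∧ γ = γ' ∧ δ = δ' := by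
  have ha := haC h
  have hb := hbC h
  refine ⟨?_, ?_, ?_, ?_⟩
  · have h1 := tr0 h α β γ δ
    rw [he, tr0 h] at h1
    have h2 : (α' : ℂ) = α := by
      apply mul_left_cancel₀ (two_ne_zero (α := ℂ)); exact h1
    exact_mod_cast h2.symm
  · have h1 := tr1 h α β γ δ
    rw [he, tr1 h] at h1
    have h2 : (β' : ℂ) = β := by
      apply mul_left_cancel₀ (mul_ne_zero (two_ne_zero (α := ℂ)) ha); exact h1
    exact_mod_cast h2.symm
  · have h1 := tr2 h α β γ δ
    rw [he, tr2 h] at h1
    have h2 : (γ' : ℂ) = γ := by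
      apply mul_left_cancel₀ (mul_ne_zero (two_ne_zero (α := ℂ)) hb); exact h1
    exact_mod_cast h2.symm
  · have h1 := tr3 h α β γ δ
    rw [he, tr3 h] at h1
    have h2 : (δ' : ℂ) = δ := by
      apply mul_left_cancel₀ (mul_ne_zero (mul_ne_zero (two_ne_zero (α := ℂ)) ha) hb)
      linear_combination -h1
    exact_mod_cast h2.symm

lemma qel_mul (h : QB a b x y) (α β γ δ α' β' γ' δ' : ℚ) :
    qel x y α β γ δ * qel x y α' β' γ' δ' =
      qel x y (α * α' + a * β * β' + b * γ * γ' - a * b * δ * δ')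
        (α * β' + β * α' - b * γ * δ' + b * δ * γ')
        (α * γ' + a * β * δ' + γ * α' - a * δ * β')
        (α * δ' + β * γ' - γ * β' + δ * α') := by
  simp only [qel, add_mul, mul_add, Matrix.smul_mul, Matrix.mul_smul, one_mul, mul_one, h.hx, h.hy,
    xxy h, yxy h, xyxy h, xyx h, xyy h, yx h]
  push_cast
  module

lemma qel_det (h : QB a b x y) (α β γ δ : ℚ) :
    (qel x y α β γ δ).det = α ^ 2 - a * β ^ 2 - b * γ ^ 2 + a * b * δ ^ 2 := by
  have h1 : (qel x y α β γ δ).adjugate = qel x y α (-β) (-γ) (-δ) := by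
    have h2 : (qel x y α β γ δ).adjugate = (qel x y α β γ δ).trace • (1 : M2) - qel x y α β γ δ := by
      rw [Matrix.adjugate_fin_two]
      ext i j
      fin_cases i <;> fin_cases j <;> simp [Matrix.trace_fin_two]
    rw [h2, tr0 h]
    simp only [qel]
    push_cast
    module
  have h3 := Matrix.mul_adjugate (qel x y α β γ δ)
  rw [h1, qel_mul h] at h3
  have h4 := congrArg Matrix.trace h3
  rw [tr0 h] at h4
  simp only [Matrix.trace_smul, Matrix.trace_one, Fintype.card_fin, smul_eq_mul] at h4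
  push_cast at h4
  linear_combination -(1/2 : ℂ) * h4

theorem piece : S_HOM.{u} := by
  intro K _ _ G _ ρ a b x y h hdet hc
  choose α β γ δ hc using hc
  have hm : ∀ g k, α (g * k) = α g * α k + a * β g * β k + b * γ g * γ k - a * b * δ g * δ k ∧
      β (g * k) = α g * β k + β g * α k - b * γ g * δ k + b * δ g * γ k ∧
      γ (g * k) = α g * γ k + a * β g * δ k + γ g * α k - a * δ g * β k ∧
      δ (g * k) = α g * δ k + β g * γ k - γ g * β k + δ g * α k := by
    intro g k
    apply qel_inj h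
    rw [← hc, ← qel_mul h, ← hc, ← hc, map_mul]
    rfl
  have h1 : α 1 = 1 ∧ β 1 = 0 ∧ γ 1 = 0 ∧ δ 1 = 0 := by
    apply qel_inj h
    rw [← hc, map_one]
    simp [qel]
  have hn : ∀ g, α g ^ 2 - a * β g ^ 2 - b * γ g ^ 2 + a * b * δ g ^ 2 = 1 := by
    intro g
    have h2 := hdet g
    rw [hc, qel_det h] at h2
    exact_mod_cast h2
  let f : G →* QuaternionAlgebra K (a : K) 0 (b : K) :=
    { toFun := fun g => ⟨(α g : K), (β g : K), (γ g : K), (δ g : K)⟩
      map_one' := by
        obtain ⟨e1, e2, e3, e4⟩ := h1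
        ext <;> simp [e1, e2, e3, e4]
      map_mul' := by
        intro g k
        obtain ⟨e1, e2, e3, e4⟩ := hm g k
        ext
        · simp [e1]; try ring
        · simp [e2]; try ring
        · simp [e3]; try ring
        · simp [e4]; try ring }
  refine ⟨f, fun g => ?_, fun g hg => ?_⟩
  · have h2 : (α g : K) ^ 2 - a * (β g : K) ^ 2 - b * (γ g : K) ^ 2 + a * b * (δ g : K) ^ 2 = 1 := by
      exact_mod_cast hn g
    ext
    · simp [f]; linear_combination h2
    · simp [f]; try ring
    · simp [f]; try ring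
    · simp [f]; try ring
  · have e1 : (α g : K) = 1 := congrArg QuaternionAlgebra.re hg
    have e2 : (β g : K) = 0 := congrArg QuaternionAlgebra.imI hg
    have e3 : (γ g : K) = 0 := congrArg QuaternionAlgebra.imJ hg
    have e4 : (δ g : K) = 0 := congrArg QuaternionAlgebra.imK hg
    have e1 : α g = 1 := by exact_mod_cast e1
    have e2 : β g = 0 := by exact_mod_cast e2
    have e3 : γ g = 0 := by exact_mod_cast e3
    have e4 : δ g = 0 := by exact_mod_cast e4
    apply Units.ext
    rw [hc, e1, e2, e3, e4]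
    simp [qel]

end Pool.Agent.R693.SU.HOMown
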