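import Pool.Agent.R693.SU.Stm

/-!
# Piece SU-LOC: perfect groups in the norm one group of a `p`-adic division quaternion algebra
-/

set_option autoImplicit false

open scoped commutatorElement

namespace Pool.Agent.R693.SU

universe u

namespace LOCAux

variable {p : ℕ} [Fact p.Prime] {a b : ℚ_[p]}

/-- The norm form. -/
noncomputable def nm (q : QuaternionAlgebra ℚ_[p] a 0 b) : ℚ_[p] :=
  q.re ^ 2 - a * q.imI ^ 2 - b * q.imJ ^ 2 + a * b * q.imK ^ 2

lemma nm_mul (x y : QuaternionAlgebra ℚ_[p] a 0 b) : nm (x * y) = nm x * nm y := by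
  simp [nm]
  ring

lemma nm_zero : nm (0 : QuaternionAlgebra ℚ_[p] a 0 b) = 0 := by
  simp [nm]

lemma nm_smul (c : ℚ_[p]) (x : QuaternionAlgebra ℚ_[p] a 0 b) : nm (c • x) = c ^ 2 * nm x := by
  simp [nm]
  ring

lemma nm_neg (x : QuaternionAlgebra ℚ_[p] a 0 b) : nm (-x) = nm x := by
  simp [nm]

lemma nm_star (x : QuaternionAlgebra ℚ_[p] a 0 b) : nm (star x) = nm x := by
  simp [nm]

lemma nm_add (x y : QuaternionAlgebra ℚ_[p] a 0 b) :
    nm (x + y) = nm x + 2 * (x * star y).re + nm y := by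
  simp [nm]
  ring

lemma nm_of_star (x : QuaternionAlgebra ℚ_[p] a 0 b) (h : x * star x = 1) : nm x = 1 := by
  have h1 := congrArg QuaternionAlgebra.re h
  simp at h1
  simp only [nm]
  linear_combination h1

lemma nm_lin (x y : QuaternionAlgebra ℚ_[p] a 0 b) (α β γ : ℚ_[p]) :
    nm (α • (1 : QuaternionAlgebra ℚ_[p] a 0 b) + β • x + γ • y)
      = α ^ 2 + β ^ 2 * nm x + γ ^ 2 * nm y + α * β * (2 * x.re)
      + α * γ * (2 * y.re) + β * γ * (2 * (x * star y).re) := by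
  simp [nm]
  ring

lemma nm_eq_zero (h : ∀ x y z : ℚ_[p], z ^ 2 = a * x ^ 2 + b * y ^ 2 → x = 0 ∧ y = 0 ∧ z = 0)
    (q : QuaternionAlgebra ℚ_[p] a 0 b) (hq : nm q = 0) : q = 0 := by
  have h1 := h (q.imI * q.imJ - q.re * q.imK) (q.imJ ^ 2 - a * q.imK ^ 2)
    (q.re * q.imJ - a * q.imI * q.imK) (by
      simp only [nm] at hq
      linear_combination (q.imJ ^ 2 - a * q.imK ^ 2) * hq)
  have h2 := h q.imK 0 q.imJ (by linear_combination h1.2.1)
  have hJ := h2.2.2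
  have hK := h2.1
  have h3 := h q.imI 0 q.re (by
    simp only [nm, hJ, hK] at hq
    linear_combination hq)
  ext
  · simpa using h3.2.2
  · simpa using h3.1
  · simpa using hJ
  · simpa using hK

lemma tr_le (hT : S_TR) (ha : a ≠ 0) (hb : b ≠ 0)
    (h : ∀ x y z : ℚ_[p], z ^ 2 = a * x ^ 2 + b * y ^ 2 → x = 0 ∧ y = 0 ∧ z = 0)
    (x y : QuaternionAlgebra ℚ_[p] a 0 b) (c : ℚ_[p]) (hc : c ≠ 0)
    (hx : ‖nm x‖ ≤ ‖c‖) (hy : ‖nm y‖ ≤ ‖c‖) : ‖2 * (x * star y).re‖ ≤ ‖c‖ := by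
  have hc' : 0 < ‖c‖ := norm_pos_iff.mpr hc
  have h1 := hT p a b ha hb h (c⁻¹ • (x * star y)) (by
    have h2 : nm (c⁻¹ • (x * star y)) = (nm x / c) * (nm y / c) := by
      rw [nm_smul, nm_mul, nm_star]
      field_simp
    have h3 : ‖nm (c⁻¹ • (x * star y))‖ ≤ 1 := by
      rw [h2, norm_mul, norm_div, norm_div]
      have e1 : ‖nm x‖ / ‖c‖ ≤ 1 := (div_le_one hc').mpr hx
      have e2 : ‖nm y‖ / ‖c‖ ≤ 1 := (div_le_one hc').mpr hy
      exact mul_le_one₀ e1 (by positivity) e2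
    exact h3)
  have h4 : 2 * (c⁻¹ • (x * star y)).re = c⁻¹ * (2 * (x * star y).re) := by
    rw [QuaternionAlgebra.re_smul, smul_eq_mul]
    ring
  rw [h4, norm_mul, norm_inv] at h1
  rwa [inv_mul_le_iff₀ hc', mul_one] at h1

lemma add_le (hT : S_TR) (ha : a ≠ 0) (hb : b ≠ 0)
    (h : ∀ x y z : ℚ_[p], z ^ 2 = a * x ^ 2 + b * y ^ 2 → x = 0 ∧ y = 0 ∧ z = 0)
    (x y : QuaternionAlgebra ℚ_[p] a 0 b) (c : ℚ_[p]) (hc : c ≠ 0)
    (hx : ‖nm x‖ ≤ ‖c‖) (hy : ‖nm y‖ ≤ ‖c‖) : ‖nm (x + y)‖ ≤ ‖c‖ := by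
  rw [nm_add]
  have h1 := tr_le hT ha hb h x y c hc hx hy
  refine (IsUltrametricDist.norm_add_le_max _ _).trans (max_le ?_ hy)
  exact (IsUltrametricDist.norm_add_le_max _ _).trans (max_le hx h1)

lemma toZMod_iff (g : ℤ_[p]) : PadicInt.toZMod g = 0 ↔ ‖g‖ < 1 := by
  rw [← RingHom.mem_ker, PadicInt.ker_toZMod, IsLocalRing.mem_maximalIdeal,
    PadicInt.mem_nonunits]

lemma norm_one_of (g : ℤ_[p]) (hg : PadicInt.toZMod g ≠ 0) : ‖g‖ = 1 := by
  rw [Ne, toZMod_iff, not_lt] at hg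
  exact le_antisymm (PadicInt.norm_le_one g) hg

open MvPolynomial in
/-- A ternary quadratic form over `ZMod p` has a nontrivial zero. -/
lemma ternary (r s t : ZMod p) : ∃ u : Fin 3 → ZMod p, u ≠ 0 ∧
    u 0 ^ 2 + u 1 ^ 2 + u 2 ^ 2 + u 0 * u 1 * r + u 0 * u 2 * s + u 1 * u 2 * t = 0 := by
  classical
  let F : MvPolynomial (Fin 3) (ZMod p) := X 0 ^ 2 + X 1 ^ 2 + X 2 ^ 2 + X 0 * X 1 * C r
    + X 0 * X 2 * C s + X 1 * X 2 * C t
  have hF : F.IsHomogeneous 2 := by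
    have e : ∀ i j : Fin 3, ∀ w : ZMod p,
        (X i * X j * C w : MvPolynomial (Fin 3) (ZMod p)).IsHomogeneous 2 := by
      intro i j w
      exact ((isHomogeneous_X _ i).mul (isHomogeneous_X _ j)).mul (isHomogeneous_C _ w)
    have e2 : ∀ i : Fin 3, (X i ^ 2 : MvPolynomial (Fin 3) (ZMod p)).IsHomogeneous 2 := by
      intro i
      simpa using (isHomogeneous_X (ZMod p) i).pow 2
    exact ((((((e2 0).add (e2 1)).add (e2 2)).add (e 0 1 r)).add (e 0 2 s)).add (e 1 2 t))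
  have hdeg : F.totalDegree < Fintype.card (Fin 3) := by
    have := hF.totalDegree_le
    simp
    omega
  have hdvd := char_dvd_card_solutions p hdeg
  by_contra hcon
  push Not at hcon
  have hz : ∀ x : {x : Fin 3 → ZMod p // eval x F = 0}, x.1 = 0 := by
    intro x
    by_contra hx
    apply hcon x.1 hx
    have := x.2
    simpa [F] using this
  have hcard : Fintype.card {x : Fin 3 → ZMod p // eval x F = 0} = 1 := by
    rw [Fintype.card_eq_one_iff]
    refine ⟨⟨0, by simp [F]⟩, fun y => Subtype.ext (hz y)⟩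
  rw [hcard] at hdvd
  exact (Fact.out : p.Prime).one_lt.ne' (Nat.dvd_one.mp hdvd)

lemma comm_le (hT : S_TR) (ha : a ≠ 0) (hb : b ≠ 0)
    (h : ∀ x y z : ℚ_[p], z ^ 2 = a * x ^ 2 + b * y ^ 2 → x = 0 ∧ y = 0 ∧ z = 0)
    (x y : QuaternionAlgebra ℚ_[p] a 0 b) (hx : nm x = 1) (hy : nm y = 1) :
    ‖nm (x * y - y * x)‖ ≤ ‖(p : ℚ_[p])‖ := by
  have hp0 : (p : ℚ_[p]) ≠ 0 := by
    exact_mod_cast (Fact.out : p.Prime).ne_zero
  have one_ne : (1 : ℚ_[p]) ≠ 0 := one_ne_zero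
  have h1 : ‖2 * x.re‖ ≤ 1 := by
    have := tr_le hT ha hb h x 1 1 one_ne (by rw [hx]) (by simp [nm])
    simpa using this
  have h2 : ‖2 * y.re‖ ≤ 1 := by
    have := tr_le hT ha hb h y 1 1 one_ne (by rw [hy]) (by simp [nm])
    simpa using this
  have h3 : ‖2 * (x * star y).re‖ ≤ 1 := by
    have := tr_le hT ha hb h x y 1 one_ne (by rw [hx]) (by rw [hy])
    simpa using this
  obtain ⟨tx, htx⟩ : ∃ t : ℤ_[p], (t : ℚ_[p]) = 2 * x.re := ⟨⟨2 * x.re, h1⟩, rfl⟩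
  obtain ⟨ty, hty⟩ : ∃ t : ℤ_[p], (t : ℚ_[p]) = 2 * y.re := ⟨⟨2 * y.re, h2⟩, rfl⟩
  obtain ⟨txy, htxy⟩ : ∃ t : ℤ_[p], (t : ℚ_[p]) = 2 * (x * star y).re :=
    ⟨⟨2 * (x * star y).re, h3⟩, rfl⟩
  obtain ⟨u, hu, hu0⟩ := ternary (p := p) (PadicInt.toZMod tx)
    (PadicInt.toZMod ty) (PadicInt.toZMod txy)
  let A : ℤ_[p] := ((u 0).val : ℤ_[p])
  let B : ℤ_[p] := ((u 1).val : ℤ_[p])
  let C : ℤ_[p] := ((u 2).val : ℤ_[p])
  have hA : PadicInt.toZMod A = u 0 := by simp [A]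
  have hB : PadicInt.toZMod B = u 1 := by simp [B]
  have hC : PadicInt.toZMod C = u 2 := by simp [C]
  let F : ℤ_[p] := A ^ 2 + B ^ 2 + C ^ 2 + A * B * tx + A * C * ty + B * C * txy
  have hF : PadicInt.toZMod F = 0 := by
    simp only [F, map_add, map_mul, map_pow, hA, hB, hC]
    exact hu0
  have hFlt : ‖F‖ < 1 := (toZMod_iff F).mp hF
  have hFle : ‖F‖ ≤ ‖(p : ℚ_[p])‖ := by
    obtain ⟨k, hk⟩ := (PadicInt.norm_lt_one_iff_dvd F).mp hFlt
    have e1 : ‖F‖ = ‖(p : ℤ_[p])‖ * ‖k‖ := by rw [hk, norm_mul]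
    have e2 : ‖(p : ℤ_[p])‖ = ‖(p : ℚ_[p])‖ := by simp
    rw [e1, e2]
    exact mul_le_of_le_one_right (norm_nonneg _) (PadicInt.norm_le_one k)
  set α : ℚ_[p] := (A : ℚ_[p]) with hα
  set β : ℚ_[p] := (B : ℚ_[p]) with hβ
  set γ : ℚ_[p] := (C : ℚ_[p]) with hγ
  let z : QuaternionAlgebra ℚ_[p] a 0 b := α • (1 : QuaternionAlgebra ℚ_[p] a 0 b) + β • x + γ • y
  have hz : nm z = (F : ℚ_[p]) := by
    simp only [z]
    rw [nm_lin, hx, hy, ← htx, ← hty, ← htxy]
    simp only [F, hα, hβ, hγ]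
    push_cast
    ring
  have hzle : ‖nm z‖ ≤ ‖(p : ℚ_[p])‖ := by
    rw [hz]
    exact hFle
  have hmul1 : ∀ w : QuaternionAlgebra ℚ_[p] a 0 b, nm w = 1 →
      ‖nm (w * z - z * w)‖ ≤ ‖(p : ℚ_[p])‖ := by
    intro w hw
    rw [sub_eq_add_neg]
    apply add_le hT ha hb h _ _ _ hp0
    · rw [nm_mul, hw, one_mul]
      exact hzle
    · rw [nm_neg, nm_mul, hw, mul_one]
      exact hzle
  by_cases hu2 : u 2 = 0
  · have hγ0 : γ = 0 := by simp [hγ, C, hu2]
    by_cases hu1 : u 1 = 0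
    · have hβ0 : β = 0 := by simp [hβ, B, hu1]
      exfalso
      have hu00 : u 0 ≠ 0 := by
        intro h0
        apply hu
        funext i
        fin_cases i
        · exact h0
        · exact hu1
        · exact hu2
      have hA1 : ‖A‖ = 1 := norm_one_of A (by rw [hA]; exact hu00)
      have hz2 : nm z = α ^ 2 := by
        simp only [z]
        rw [nm_lin, hβ0, hγ0]
        ring
      have hα1 : ‖α‖ = 1 := by rw [hα]; exact hA1
      rw [hz2, norm_pow, hα1, one_pow] at hzle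
      exact absurd hzle (not_le.mpr Padic.norm_p_lt_one)
    · have hB1 : ‖β‖ = 1 := by
        rw [hβ]
        exact norm_one_of B (by rw [hB]; exact hu1)
      have e : y * z - z * y = (-β) • (x * y - y * x) := by
        simp only [z, hγ0]
        simp only [mul_add, add_mul, mul_smul_comm, smul_mul_assoc, mul_one, one_mul]
        module
      have := hmul1 y hy
      rw [e, nm_smul, norm_mul, norm_pow, norm_neg, hB1, one_pow, one_mul] at this
      exact this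
  · have hC1 : ‖γ‖ = 1 := by
      rw [hγ]
      exact norm_one_of C (by rw [hC]; exact hu2)
    have e : x * z - z * x = γ • (x * y - y * x) := by
      simp only [z]
      simp only [mul_add, add_mul, mul_smul_comm, smul_mul_assoc, mul_one, one_mul]
      module
    have := hmul1 x hx
    rw [e, nm_smul, norm_mul, norm_pow, hC1, one_pow, one_mul] at this
    exact this

lemma all_of_comm (hT : S_TR) (ha : a ≠ 0) (hb : b ≠ 0)
    (h : ∀ x y z : ℚ_[p], z ^ 2 = a * x ^ 2 + b * y ^ 2 → x = 0 ∧ y = 0 ∧ z = 0)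
    {G : Type u} [Group G] (hG : commutator G = ⊤)
    (f : G →* QuaternionAlgebra ℚ_[p] a 0 b) (hf : ∀ g, nm (f g) = 1) (c : ℚ_[p]) (hc : c ≠ 0)
    (hcm : ∀ g k : G, ‖nm (f ⁅g, k⁆ - 1)‖ ≤ ‖c‖) : ∀ g, ‖nm (f g - 1)‖ ≤ ‖c‖ := by
  let H : Subgroup G :=
    { carrier := {g | ‖nm (f g - 1)‖ ≤ ‖c‖}
      one_mem' := by
        simp only [Set.mem_setOf_eq, map_one, sub_self, nm_zero, norm_zero]
        exact norm_nonneg c
      mul_mem' := by
        intro g k hg hk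
        simp only [Set.mem_setOf_eq] at hg hk ⊢
        have e : f (g * k) - 1 = f g * (f k - 1) + (f g - 1) := by
          rw [map_mul, mul_sub, mul_one]
          abel
        rw [e]
        apply add_le hT ha hb h _ _ _ hc
        · rw [nm_mul, hf, one_mul]
          exact hk
        · exact hg
      inv_mem' := by
        intro g hg
        simp only [Set.mem_setOf_eq] at hg ⊢
        have e : f g⁻¹ - 1 = -(f g⁻¹ * (f g - 1)) := by
          rw [mul_sub, ← map_mul, inv_mul_cancel, map_one, mul_one, neg_sub]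
        rw [e, nm_neg, nm_mul, hf, one_mul]
        exact hg }
  have hle : commutator G ≤ H := by
    rw [commutator_def, Subgroup.commutator_le]
    intro g _ k _
    exact hcm g k
  intro g
  have : g ∈ H := hle (by rw [hG]; trivial)
  exact this

lemma comm_sub {G : Type u} [Group G] (f : G →* QuaternionAlgebra ℚ_[p] a 0 b)
    (hf : ∀ g, nm (f g) = 1) (g k : G) :
    nm (f ⁅g, k⁆ - 1) = nm (f g * f k - f k * f g) := by
  have e : f ⁅g, k⁆ - 1 = (f g * f k - f k * f g) * f (g⁻¹ * k⁻¹) := by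
    rw [sub_mul, ← map_mul, ← map_mul, ← map_mul, ← map_mul]
    have e1 : g * k * (g⁻¹ * k⁻¹) = ⁅g, k⁆ := by
      rw [commutatorElement_def]
      group
    have e2 : k * g * (g⁻¹ * k⁻¹) = 1 := by group
    rw [e1, e2, map_one]
  rw [e, nm_mul, hf, mul_one]

end LOCAux

open LOCAux in
/-- Piece SU-LOC. -/
theorem loc_main (hT : S_TR) : S_LOC.{u} := by
  intro p _ a b ha hb h G _ hG f hf0 g
  have hf : ∀ g, nm (f g) = 1 := fun g => nm_of_star _ (hf0 g)
  have hp0 : (p : ℚ_[p]) ≠ 0 := by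
    exact_mod_cast (Fact.out : p.Prime).ne_zero
  have hp1 : ‖(p : ℚ_[p])‖ < 1 := Padic.norm_p_lt_one
  have key : ∀ m : ℕ, ∀ g, ‖nm (f g - 1)‖ ≤ ‖(p : ℚ_[p]) ^ (m + 1)‖ := by
    intro m
    induction m with
    | zero =>
      apply all_of_comm hT ha hb h hG f hf _ (pow_ne_zero _ hp0)
      intro g k
      rw [comm_sub f hf, zero_add, pow_one]
      exact comm_le hT ha hb h _ _ (hf g) (hf k)
    | succ m ih =>
      apply all_of_comm hT ha hb h hG f hf _ (pow_ne_zero _ hp0)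
      intro g k
      rw [comm_sub f hf]
      have e : f g * f k - f k * f g = (f g - 1) * (f k - 1) + -((f k - 1) * (f g - 1)) := by
        noncomm_ring
      have hbd : ‖nm (f g - 1)‖ * ‖nm (f k - 1)‖ ≤ ‖(p : ℚ_[p]) ^ (m + 1 + 1)‖ := by
        have e1 : ‖nm (f g - 1)‖ ≤ ‖(p : ℚ_[p])‖ := by
          refine (ih g).trans ?_
          rw [norm_pow]
          exact pow_le_of_le_one (norm_nonneg _) hp1.le (Nat.succ_ne_zero m)
        have e2 := ih k
        rw [pow_succ, norm_mul, mul_comm]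
        exact mul_le_mul e2 e1 (norm_nonneg _) (norm_nonneg _)
      rw [e]
      apply add_le hT ha hb h _ _ _ (pow_ne_zero _ hp0)
      · rw [nm_mul, norm_mul]
        exact hbd
      · rw [nm_neg, nm_mul, norm_mul, mul_comm]
        exact hbd
  have hzero : nm (f g - 1) = 0 := by
    by_contra hne
    have hpos : 0 < ‖nm (f g - 1)‖ := norm_pos_iff.mpr hne
    obtain ⟨m, hm⟩ := exists_pow_lt_of_lt_one hpos hp1
    have h1 := key m g
    rw [norm_pow] at h1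
    have h2 : ‖(p : ℚ_[p])‖ ^ (m + 1) ≤ ‖(p : ℚ_[p])‖ ^ m :=
      pow_le_pow_of_le_one (norm_nonneg _) hp1.le (Nat.le_succ m)
    linarith
  exact sub_eq_zero.mp (nm_eq_zero h _ hzero)

end Pool.Agent.R693.SU
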