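import Pool.Agent.R693.SU.Stm

/-! # SU-LEG: Legendre theorem without the real place -/

set_option autoImplicit false

namespace Pool.Agent.R693.SU

namespace LegAux

/-- isotropy of the form -/
def Iso (K : Type) [Field K] (a b : K) : Prop :=
  ∃ x y z : K, z ^ 2 = a * x ^ 2 + b * y ^ 2 ∧ ¬ (x = 0 ∧ y = 0 ∧ z = 0)

theorem Iso.swap {K : Type} [Field K] {a b : K} (h : Iso K a b) : Iso K b a := by
  obtain ⟨x, y, z, h, hn⟩ := h
  exact ⟨y, x, z, by rw [h]; ring, fun ⟨h1, h2, h3⟩ => hn ⟨h2, h1, h3⟩⟩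

theorem Iso.scale {K : Type} [Field K] {a b u : K} (hu : u ≠ 0) (h : Iso K a b) :
    Iso K (a * u ^ 2) b := by
  obtain ⟨x, y, z, h, hn⟩ := h
  refine ⟨x / u, y, z, ?_, ?_⟩
  · rw [h]
    field_simp
  · rintro ⟨h1, h2, h3⟩
    exact hn ⟨(div_eq_zero_iff.1 h1).resolve_right hu, h2, h3⟩

theorem Iso.unscale {K : Type} [Field K] {a b u : K} (hu : u ≠ 0) (h : Iso K (a * u ^ 2) b) :
    Iso K a b := by
  obtain ⟨x, y, z, h, hn⟩ := h
  refine ⟨u * x, y, z, ?_, ?_⟩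
  · rw [h]
    ring
  · rintro ⟨h1, h2, h3⟩
    exact hn ⟨(mul_eq_zero.1 h1).resolve_left hu, h2, h3⟩

theorem Iso.desc {K : Type} [Field K] {a b b' t : K} (hb : b ≠ 0) (ht : t ^ 2 - a = b * b')
    (h : Iso K a b) : Iso K a b' := by
  obtain ⟨x, y, z, h, hn⟩ := h
  by_cases hy : y = 0
  · subst hy
    exact ⟨x, 0, z, by rw [h]; ring, hn⟩
  · refine ⟨t * x + z, b * y, t * z + a * x, ?_, ?_⟩
    · have e : (t * z + a * x) ^ 2 - a * (t * x + z) ^ 2 = (t ^ 2 - a) * (z ^ 2 - a * x ^ 2) := by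
        ring
      rw [ht, h] at e
      linear_combination e
    · rintro ⟨_, h2, _⟩
      exact (mul_ne_zero hb hy) h2

theorem scale_iff {K : Type} [Field K] [CharZero K] (a u c : ℤ) (hu : u ≠ 0) :
    Iso K (a : K) ((u * u * c : ℤ) : K) ↔ Iso K (a : K) (c : K) := by
  have hu' : (u : K) ≠ 0 := Int.cast_ne_zero.2 hu
  have e : ((u * u * c : ℤ) : K) = (c : K) * (u : K) ^ 2 := by
    push_cast
    ring
  rw [e]
  constructor
  · intro h
    exact (h.swap.unscale hu').swap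
  · intro h
    exact (h.swap.scale hu').swap

theorem prim {p : ℕ} [Fact p.Prime] {a b : ℤ} (h : Iso ℚ_[p] (a : ℚ_[p]) (b : ℚ_[p])) :
    ∃ x y z : ℤ_[p], z ^ 2 = a * x ^ 2 + b * y ^ 2 ∧ (x = 1 ∨ y = 1 ∨ z = 1) := by
  obtain ⟨x, y, z, h, hn⟩ := h
  have key : ∀ m : ℚ_[p], m ≠ 0 → ‖x‖ ≤ ‖m‖ → ‖y‖ ≤ ‖m‖ → ‖z‖ ≤ ‖m‖ → (m = x ∨ m = y ∨ m = z) →
      ∃ x y z : ℤ_[p], z ^ 2 = a * x ^ 2 + b * y ^ 2 ∧ (x = 1 ∨ y = 1 ∨ z = 1) := by
    intro m hm hx hy hz hor
    have hm' : 0 < ‖m‖ := norm_pos_iff.2 hm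
    have e : ∀ w : ℚ_[p], ‖w‖ ≤ ‖m‖ → ‖w / m‖ ≤ 1 := by
      intro w hw
      rw [norm_div]
      exact (div_le_one hm').2 hw
    obtain ⟨X, hX⟩ : ∃ X : ℤ_[p], (X : ℚ_[p]) = x / m := ⟨⟨x / m, e x hx⟩, rfl⟩
    obtain ⟨Y, hY⟩ : ∃ X : ℤ_[p], (X : ℚ_[p]) = y / m := ⟨⟨y / m, e y hy⟩, rfl⟩
    obtain ⟨Z, hZ⟩ : ∃ X : ℤ_[p], (X : ℚ_[p]) = z / m := ⟨⟨z / m, e z hz⟩, rfl⟩
    have hinj : ∀ v w : ℤ_[p], (v : ℚ_[p]) = w → v = w := fun v w h => Subtype.ext h
    refine ⟨X, Y, Z, ?_, ?_⟩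
    · apply hinj
      push_cast
      rw [hX, hY, hZ, div_pow, div_pow, div_pow, h]
      ring
    · rcases hor with rfl | rfl | rfl
      · exact Or.inl (hinj _ _ (by rw [hX, div_self hm, PadicInt.coe_one]))
      · exact Or.inr (Or.inl (hinj _ _ (by rw [hY, div_self hm, PadicInt.coe_one])))
      · exact Or.inr (Or.inr (hinj _ _ (by rw [hZ, div_self hm, PadicInt.coe_one])))
  have hz0 : ∀ v w : ℚ_[p], ‖v‖ ≤ ‖w‖ → w = 0 → v = 0 := by
    intro v w hvw hw
    rw [hw, norm_zero] at hvw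
    exact norm_le_zero_iff.1 hvw
  rcases le_total ‖x‖ ‖y‖ with h1 | h1
  · rcases le_total ‖y‖ ‖z‖ with h2 | h2
    · exact key z (fun h0 => hn ⟨hz0 _ _ (h1.trans h2) h0, hz0 _ _ h2 h0, h0⟩) (h1.trans h2) h2
        le_rfl (Or.inr (Or.inr rfl))
    · exact key y (fun h0 => hn ⟨hz0 _ _ h1 h0, h0, hz0 _ _ h2 h0⟩) h1 le_rfl h2 (Or.inr (Or.inl rfl))
  · rcases le_total ‖x‖ ‖z‖ with h2 | h2
    · exact key z (fun h0 => hn ⟨hz0 _ _ h2 h0, hz0 _ _ (h1.trans h2) h0, h0⟩) h2 (h1.trans h2)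
        le_rfl (Or.inr (Or.inr rfl))
    · exact key x (fun h0 => hn ⟨h0, hz0 _ _ h1 h0, hz0 _ _ h2 h0⟩) le_rfl h1 h2 (Or.inl rfl)

theorem loc {p : ℕ} [Fact p.Prime] {a b : ℤ} (hb : Squarefree b) (hpb : (p : ℤ) ∣ b)
    (h : Iso ℚ_[p] (a : ℚ_[p]) (b : ℚ_[p])) : ∃ t : ℤ, (p : ℤ) ∣ t ^ 2 - a := by
  by_cases hpa : (p : ℤ) ∣ a
  · exact ⟨0, by simpa using hpa⟩
  obtain ⟨x, y, z, h, hone⟩ := prim h
  obtain ⟨c, rfl⟩ := hpb
  have hP' : Prime (p : ℤ) := Nat.prime_iff_prime_int.1 (Fact.out : p.Prime)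
  have hpc : ¬ (p : ℤ) ∣ c := by
    rintro ⟨d, rfl⟩
    exact hP'.not_isUnit (hb (p : ℤ) ⟨d, by ring⟩)
  have hP : Prime (p : ℤ_[p]) := PadicInt.prime_p
  have hk : ∀ w : ℤ_[p], PadicInt.toZMod w = 0 ↔ (p : ℤ_[p]) ∣ w := by
    intro w
    rw [← RingHom.mem_ker, PadicInt.ker_toZMod, PadicInt.maximalIdeal_eq_span_p,
      Ideal.mem_span_singleton]
  have hcU : ¬ (p : ℤ_[p]) ∣ (c : ℤ_[p]) := by
    intro hd
    rw [← hk, map_intCast, ZMod.intCast_zmod_eq_zero_iff_dvd] at hd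
    exact hpc hd
  have hx : ¬ (p : ℤ_[p]) ∣ x := by
    intro hx
    obtain ⟨x', rfl⟩ := hx
    have hz2 : (p : ℤ_[p]) ∣ z ^ 2 := by
      rw [h]
      refine ⟨a * p * x' ^ 2 + c * y ^ 2, ?_⟩
      push_cast
      ring
    obtain ⟨z', rfl⟩ := hP.dvd_of_dvd_pow hz2
    have hy2 : (p : ℤ_[p]) ∣ c * y ^ 2 := by
      refine ⟨z' ^ 2 - a * x' ^ 2, ?_⟩
      have hp0 : (p : ℤ_[p]) ≠ 0 := hP.ne_zero
      apply mul_left_cancel₀ hp0
      push_cast at h
      linear_combination -h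
    have hy : (p : ℤ_[p]) ∣ y := hP.dvd_of_dvd_pow ((hP.dvd_or_dvd hy2).resolve_left hcU)
    have hnu : ∀ w : ℤ_[p], (p : ℤ_[p]) ∣ w → w ≠ 1 := by
      rintro w hw rfl
      exact hP.not_isUnit (isUnit_of_dvd_one hw)
    rcases hone with h1 | h1 | h1
    · exact hnu _ ⟨x', rfl⟩ h1
    · exact hnu _ hy h1
    · exact hnu _ ⟨z', rfl⟩ h1
  have e := congrArg (PadicInt.toZMod (p := p)) h
  rw [map_add, map_mul, map_mul, map_pow, map_pow, map_pow, map_intCast, map_intCast,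
    Int.cast_mul, Int.cast_natCast, ZMod.natCast_self, zero_mul, zero_mul, add_zero] at e
  have hx0 : PadicInt.toZMod x ≠ 0 := fun h0 => hx ((hk x).1 h0)
  obtain ⟨t, ht⟩ := ZMod.intCast_surjective (PadicInt.toZMod z / PadicInt.toZMod x)
  refine ⟨t, ?_⟩
  rw [← ZMod.intCast_zmod_eq_zero_iff_dvd]
  push_cast
  rw [ht, div_pow, e]
  field_simp
  ring

theorem crt (a : ℤ) : ∀ n : ℕ, Squarefree n →
    (∀ p : ℕ, p.Prime → p ∣ n → ∃ t : ℤ, (p : ℤ) ∣ t ^ 2 - a) →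
    ∃ t : ℤ, (n : ℤ) ∣ t ^ 2 - a := by
  intro n
  induction n using Nat.strong_induction_on with
  | _ n ih =>
    intro hn hp
    by_cases h1 : n = 1
    · exact ⟨0, by simp [h1]⟩
    obtain ⟨q, hq, m, rfl⟩ := Nat.exists_prime_and_dvd h1
    have hm0 : 0 < m := by
      rcases Nat.eq_zero_or_pos m with h | h
      · exact absurd (by rw [h]; ring) hn.ne_zero
      · exact h
    have hmn : m < q * m := by
      have := hq.two_le
      nlinarith
    have hmsq : Squarefree m := hn.squarefree_of_dvd (Dvd.intro_left q rfl)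
    obtain ⟨t1, ht1⟩ := ih m hmn hmsq (fun p hpp hpm => hp p hpp (hpm.trans (Dvd.intro_left q rfl)))
    obtain ⟨t2, ht2⟩ := hp q hq (Dvd.intro m rfl)
    have hco : Nat.Coprime q m := (Nat.squarefree_mul_iff.1 hn).1
    have hco' : IsCoprime (q : ℤ) (m : ℤ) := Nat.isCoprime_iff_coprime.2 hco
    obtain ⟨u, v, huv⟩ := id hco'
    refine ⟨t1 * (u * q) + t2 * (v * m), ?_⟩
    push_cast
    apply hco'.mul_dvd
    · have e : t1 * (u * q) + t2 * (v * m) = t2 + q * ((t1 - t2) * u) := by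
        linear_combination t2 * huv
      rw [e]
      obtain ⟨k, hk⟩ := ht2
      refine ⟨k + 2 * t2 * ((t1 - t2) * u) + q * ((t1 - t2) * u) ^ 2, ?_⟩
      linear_combination hk
    · have e : t1 * (u * q) + t2 * (v * m) = t1 + m * ((t2 - t1) * v) := by
        linear_combination t1 * huv
      rw [e]
      obtain ⟨k, hk⟩ := ht1
      refine ⟨k + 2 * t1 * ((t2 - t1) * v) + m * ((t2 - t1) * v) ^ 2, ?_⟩
      linear_combination hk

theorem bound (a b b' s : ℤ) (hb : 2 ≤ |b|) (hs : 2 * |s| ≤ |b|) (hab : |a| ≤ |b|)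
    (h : s ^ 2 - a = b * b') : |b'| < |b| := by
  have h1 : |b| * |b'| ≤ |s| ^ 2 + |a| := by
    rw [← abs_mul, ← h, ← abs_pow]
    exact abs_sub _ _
  have h2 : 0 ≤ |s| := abs_nonneg s
  by_contra hcon
  push Not at hcon
  nlinarith

theorem two : ¬ Iso ℚ_[2] ((-1 : ℤ) : ℚ_[2]) ((-1 : ℤ) : ℚ_[2]) := by
  intro h
  obtain ⟨x, y, z, h, hone⟩ := prim h
  have e := congrArg (PadicInt.toZModPow (p := 2) 2) h
  rw [map_add, map_mul, map_mul, map_pow, map_pow, map_pow, map_intCast] at e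
  have hd : ∀ x y z : ZMod (2 ^ 2), z ^ 2 = ((-1 : ℤ) : ZMod (2 ^ 2)) * x ^ 2 +
      ((-1 : ℤ) : ZMod (2 ^ 2)) * y ^ 2 → x ≠ 1 ∧ y ≠ 1 ∧ z ≠ 1 := by
    decide
  obtain ⟨h1, h2, h3⟩ := hd _ _ _ e
  rcases hone with h0 | h0 | h0
  · exact h1 (by rw [h0, map_one])
  · exact h2 (by rw [h0, map_one])
  · exact h3 (by rw [h0, map_one])

theorem main : ∀ n : ℕ, ∀ a b : ℤ, a ≠ 0 → b ≠ 0 → a.natAbs + b.natAbs ≤ n →
    (∀ (p : ℕ) [Fact p.Prime], Iso ℚ_[p] (a : ℚ_[p]) (b : ℚ_[p])) → Iso ℚ (a : ℚ) (b : ℚ) := by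
  intro n
  induction n with
  | zero =>
    intro a b ha hb h
    omega
  | succ n ih =>
    have step : ∀ a b : ℤ, a ≠ 0 → b ≠ 0 → a.natAbs + b.natAbs ≤ n + 1 → a.natAbs ≤ b.natAbs →
        (∀ (p : ℕ) [Fact p.Prime], Iso ℚ_[p] (a : ℚ_[p]) (b : ℚ_[p])) →
          Iso ℚ (a : ℚ) (b : ℚ) := by
      intro a b ha hb hab hle h
      by_cases hsq : Squarefree b
      · by_cases hb1 : b.natAbs = 1
        · have hb2 : b = 1 ∨ b = -1 := by omega
          have ha2 : a = 1 ∨ a = -1 := by omega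
          rcases ha2 with rfl | rfl
          · exact ⟨1, 0, 1, by norm_num, by norm_num⟩
          · rcases hb2 with rfl | rfl
            · exact ⟨0, 1, 1, by norm_num, by norm_num⟩
            · exact absurd (h 2) two
        · obtain ⟨t, ht⟩ := crt a b.natAbs (Int.squarefree_natAbs.2 hsq) (fun p hp hpb => by
            have := Fact.mk hp
            exact loc hsq (Int.natCast_dvd.2 hpb) (h p))
          have hs : ∃ s : ℤ, b ∣ s ^ 2 - a ∧ 2 * |s| ≤ |b| := by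
            have hbn : 0 < b.natAbs := by omega
            refine ⟨t.bmod b.natAbs, ?_, ?_⟩
            · rw [← Int.natAbs_dvd]
              obtain ⟨k, hk⟩ := (Int.dvd_bmod_sub_self (x := t) (m := b.natAbs))
              obtain ⟨l, hl⟩ := ht
              have e : t.bmod b.natAbs = t + (b.natAbs : ℤ) * k := by linarith
              rw [e]
              exact ⟨l + 2 * t * k + (b.natAbs : ℤ) * k ^ 2, by linear_combination hl⟩
            · have h1 := Int.le_bmod (x := t) hbn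
              have h2 := Int.bmod_lt (x := t) hbn
              rw [Int.abs_eq_natAbs, Int.abs_eq_natAbs]
              omega
          obtain ⟨s, ⟨b', hb'⟩, hs2⟩ := hs
          by_cases hb0 : b' = 0
          · refine ⟨1, 0, s, ?_, by norm_num⟩
            rw [hb0, mul_zero, sub_eq_zero] at hb'
            rw [← hb']
            push_cast
            ring
          · have hlt : b'.natAbs < b.natAbs := by
              have := bound a b b' s (by rw [Int.abs_eq_natAbs]; omega) hs2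
                (by rw [Int.abs_eq_natAbs, Int.abs_eq_natAbs]; omega) hb'
              rw [Int.abs_eq_natAbs, Int.abs_eq_natAbs] at this
              omega
            have hI : Iso ℚ (a : ℚ) (b' : ℚ) := ih a b' ha hb0 (by omega) (fun p _ =>
              (h p).desc (t := (s : ℚ_[p])) (by exact_mod_cast hb) (by exact_mod_cast hb'))
            exact hI.desc (t := (s : ℚ)) (by exact_mod_cast hb0)
              (by rw [mul_comm]; exact_mod_cast hb')
      · rw [Squarefree] at hsq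
        push Not at hsq
        obtain ⟨u, ⟨c, rfl⟩, hu⟩ := hsq
        have hc : c ≠ 0 := by
          rintro rfl
          exact hb (mul_zero _)
        have hu0 : u ≠ 0 := by
          rintro rfl
          exact hb (by ring)
        have hlt : c.natAbs < (u * u * c).natAbs := by
          rw [Int.natAbs_mul, Int.natAbs_mul]
          have h1 : 2 ≤ u.natAbs := by
            have : u.natAbs ≠ 1 := fun h1 => hu (Int.isUnit_iff_natAbs_eq.2 h1)
            omega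
          have h2 : 1 ≤ c.natAbs := by omega
          nlinarith [Nat.mul_le_mul h1 h1]
        have hI := ih a c ha hc (by omega) (fun p _ => (scale_iff a u c hu0).1 (h p))
        exact (scale_iff a u c hu0).2 hI
    intro a b ha hb hab h
    rcases le_total a.natAbs b.natAbs with hle | hle
    · exact step a b ha hb hab hle h
    · exact (step b a hb ha (by omega) hle (fun p _ => (h p).swap)).swap

theorem rat_iff {K : Type} [Field K] [CharZero K] (a b : ℚ) :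
    Iso K (a : K) (b : K) ↔ Iso K ((a.num * a.den : ℤ) : K) ((b.num * b.den : ℤ) : K) := by
  have e : ∀ a : ℚ, ((a.num * a.den : ℤ) : K) = (a : K) * (a.den : K) ^ 2 := by
    intro a
    have h0 : (a.den : K) ≠ 0 := Nat.cast_ne_zero.2 a.den_ne_zero
    push_cast
    rw [Rat.cast_def a]
    field_simp
  have ha : (a.den : K) ≠ 0 := Nat.cast_ne_zero.2 a.den_ne_zero
  have hb : (b.den : K) ≠ 0 := Nat.cast_ne_zero.2 b.den_ne_zero
  rw [e, e]
  constructor
  · intro h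
    exact ((h.scale ha).swap.scale hb).swap
  · intro h
    exact (h.unscale ha).swap.unscale hb |>.swap

end LegAux

open LegAux in
theorem leg : S_LEG := by
  intro a b ha hb hani
  by_contra hcon
  have h : ∀ (p : ℕ) [Fact p.Prime], Iso ℚ_[p] (a : ℚ_[p]) (b : ℚ_[p]) := by
    intro p hp
    by_contra hc
    apply hcon
    refine ⟨p, hp, fun x y z hxyz => ?_⟩
    by_contra hn
    exact hc ⟨x, y, z, hxyz, hn⟩
  have hI : Iso ℚ ((a.num * a.den : ℤ) : ℚ) ((b.num * b.den : ℤ) : ℚ) := by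
    refine main _ _ _ ?_ ?_ le_rfl (fun p _ => (rat_iff a b).1 (h p))
    · exact mul_ne_zero (Rat.num_ne_zero.2 ha) (by exact_mod_cast a.den_ne_zero)
    · exact mul_ne_zero (Rat.num_ne_zero.2 hb) (by exact_mod_cast b.den_ne_zero)
  have hI' := (rat_iff (K := ℚ) a b).2 hI
  obtain ⟨x, y, z, h1, h2⟩ := hI'
  exact h2 (hani x y z (by simpa using h1))

end Pool.Agent.R693.SU
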