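import Pool.Agent.R693.SU.Stm

/-!
# SU-PERF (helper962)
-/

universe u

namespace Pool.Agent.R693.SU.PerfC

namespace PerfAux

/-- `q ↦ exp (2 π i q)` -/
noncomputable def f0 : ℚ →+ Additive ℂˣ where
  toFun q := Additive.ofMul (Units.mk0 (Complex.exp ((q : ℂ) * (2 * Real.pi * Complex.I)))
    (Complex.exp_ne_zero _))
  map_zero' := by
    apply congrArg Additive.ofMul
    ext
    simp
  map_add' a b := by
    rw [← ofMul_mul]
    apply congrArg Additive.ofMul
    ext
    simp only [Units.val_mk0, Units.val_mul, ← Complex.exp_add]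
    congr 1
    push_cast
    ring

lemma f0_eq (q : ℚ) : f0 q = 0 ↔ ∃ n : ℤ, q = n := by
  constructor
  · intro h
    have h1 : Complex.exp ((q : ℂ) * (2 * Real.pi * Complex.I)) = 1 :=
      congrArg (fun x : Additive ℂˣ => ((Additive.toMul x : ℂˣ) : ℂ)) h
    rw [Complex.exp_eq_one_iff] at h1
    obtain ⟨n, hn⟩ := h1
    refine ⟨n, ?_⟩
    have h2 : (2 * (Real.pi : ℂ) * Complex.I) ≠ 0 := by
      simp [Real.pi_ne_zero]
    have h3 := mul_right_cancel₀ h2 hn
    exact_mod_cast h3
  · rintro ⟨n, rfl⟩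
    show Additive.ofMul _ = Additive.ofMul 1
    apply congrArg Additive.ofMul
    ext
    simp only [Units.val_mk0, Units.val_one]
    rw [Complex.exp_eq_one_iff]
    exact ⟨n, by push_cast; ring⟩

/-- the character of `ℚ / ℤ` -/
noncomputable def f1 : AddCircle (1 : ℚ) →+ Additive ℂˣ :=
  QuotientAddGroup.lift (AddSubgroup.zmultiples (1 : ℚ)) f0 (by
    intro x hx
    obtain ⟨n, hn⟩ := AddSubgroup.mem_zmultiples_iff.1 hx
    exact (f0_eq x).2 ⟨n, by rw [← hn]; simp⟩)

lemma f1_ne (y : AddCircle (1 : ℚ)) (hy : y ≠ 0) : f1 y ≠ 0 := by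
  intro h
  apply hy
  obtain ⟨q, rfl⟩ := QuotientAddGroup.mk_surjective y
  have h1 : f0 q = 0 := h
  obtain ⟨n, rfl⟩ := (f0_eq q).1 h1
  exact (QuotientAddGroup.eq_zero_iff _).2
    (AddSubgroup.mem_zmultiples_iff.2 ⟨n, by simp⟩)

end PerfAux

open PerfAux in
theorem t_PERF : S_PERF.{u} := by
  intro G _ h
  by_contra hne
  obtain ⟨g, hg⟩ : ∃ g : G, g ∉ commutator G := by
    by_contra hcon
    push Not at hcon
    exact hne (eq_top_iff.2 fun x _ => hcon x)
  have ha : (Additive.ofMul (Abelianization.of g) : Additive (Abelianization G)) ≠ 0 := by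
    intro h0
    apply hg
    have h1 : Abelianization.of g = 1 := h0
    exact (QuotientGroup.eq_one_iff g).1 h1
  obtain ⟨c, hc⟩ := CharacterModule.exists_character_apply_ne_zero_of_ne_zero ha
  let χ : G →* ℂˣ := MonoidHom.mk' (fun x => Additive.toMul (f1 (c (Additive.ofMul
    (Abelianization.of x))))) (by
      intro a b
      simp only [map_mul, ofMul_mul, map_add, toMul_add])
  have h2 := h χ g
  apply f1_ne _ hc
  exact h2

end Pool.Agent.R693.SU.PerfC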