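import Pool.Agent.R693.SU.Stm

set_option autoImplicit false

open Matrix

namespace Pool.Agent.R693.SU.QBown

universe u

abbrev M2 := Matrix (Fin 2) (Fin 2) ℂ

lemma anti (X Y : M2) (hX : X.trace = 0) (hY : Y.trace = 0) :
    X * Y + Y * X = (X * Y).trace • (1 : M2) := by
  rw [Matrix.trace_fin_two] at hX hY
  have hx : X 1 1 = - X 0 0 := by linear_combination hX
  have hy : Y 1 1 = - Y 0 0 := by linear_combination hY
  ext i j
  fin_cases i <;> fin_cases j <;>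
    simp [Matrix.mul_apply, Fin.sum_univ_two, Matrix.trace_fin_two, hx, hy] <;> ring

lemma eq_zero_of (x y E : M2) (a b : ℂ) (ha : a ≠ 0) (hb : b ≠ 0) (hx : x * x = a • (1 : M2))
    (hy : y * y = b • (1 : M2)) (hxy : x * y = -(y * x)) (tx : x.trace = 0) (ty : y.trace = 0)
    (h0 : E.trace = 0) (h1 : (E * x).trace = 0) (h2 : (E * y).trace = 0)
    (h3 : (E * (x * y)).trace = 0) : E = 0 := by
  have txy : (x * y).trace = 0 := by
    have h : (x * y).trace = -(x * y).trace := by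
      conv_lhs => rw [hxy]
      rw [Matrix.trace_neg, Matrix.trace_mul_comm]
    have : (2 : ℂ) * (x * y).trace = 0 := by linear_combination h
    simpa using this
  have e1 := anti E x h0 tx
  have e2 := anti E y h0 ty
  have e3 := anti E (x * y) h0 txy
  rw [h1, zero_smul] at e1
  rw [h2, zero_smul] at e2
  rw [h3, zero_smul] at e3
  have e1' : x * E = - (E * x) := by rw [eq_neg_iff_add_eq_zero, add_comm]; exact e1
  have e2' : y * E = - (E * y) := by rw [eq_neg_iff_add_eq_zero, add_comm]; exact e2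
  have e4 : (x * y) * E = E * (x * y) := by
    rw [mul_assoc, e2', mul_neg, ← mul_assoc, e1', neg_mul, neg_neg, mul_assoc]
  rw [e4] at e3
  have e5 : (2 : ℂ) • (E * (x * y)) = 0 := by rw [two_smul]; exact e3
  have e6 : E * (x * y) = 0 := by
    rcases smul_eq_zero.1 e5 with h | h
    · norm_num at h
    · exact h
  have e7 : E * (x * y) * (y * x) = (a * b) • E := by
    calc E * (x * y) * (y * x) = E * (x * (y * y) * x) := by noncomm_ring
      _ = E * (x * (b • (1 : M2)) * x) := by rw [hy]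
      _ = b • (E * (x * x)) := by simp
      _ = b • (E * (a • (1 : M2))) := by rw [hx]
      _ = (a * b) • E := by simp [smul_smul, mul_comm]
  rw [e6, zero_mul] at e7
  rcases smul_eq_zero.1 e7.symm with h | h
  · exact absurd h (mul_ne_zero ha hb)
  · exact h

variable {G : Type u} [Group G]

/-- The rational span. -/
noncomputable def S (ρ : G →* GL (Fin 2) ℂ) : Submodule ℚ M2 := Submodule.span ℚ (Set.range fun g => (ρ g : M2))

lemma mem_S (ρ : G →* GL (Fin 2) ℂ) (g : G) : (ρ g : M2) ∈ S ρ := Submodule.subset_span ⟨g, rfl⟩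

lemma one_mem (ρ : G →* GL (Fin 2) ℂ) : (1 : M2) ∈ S ρ := by
  have := mem_S ρ 1
  simpa using this

lemma mul_mem (ρ : G →* GL (Fin 2) ℂ) {M N : M2} (hM : M ∈ S ρ) (hN : N ∈ S ρ) : M * N ∈ S ρ := by
  have h1 : M * N ∈ S ρ * S ρ := Submodule.mul_mem_mul hM hN
  unfold S at h1 ⊢
  rw [Submodule.span_mul_span] at h1
  refine Submodule.span_mono ?_ h1
  rintro _ ⟨_, ⟨g, rfl⟩, _, ⟨h, rfl⟩, rfl⟩
  exact ⟨g * h, by simp⟩

lemma smul_mem (ρ : G →* GL (Fin 2) ℂ) {M : M2} (q : ℚ) (hM : M ∈ S ρ) : (q : ℂ) • M ∈ S ρ := by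
  have : (q : ℂ) • M = q • M := by
    ext i j
    simp [Rat.smul_def]
  rw [this]
  exact Submodule.smul_mem _ _ hM

lemma tr_rat (ρ : G →* GL (Fin 2) ℂ) (ht : ∀ g, ∃ q : ℚ, (ρ g : M2).trace = (q : ℂ)) {M : M2}
    (hM : M ∈ S ρ) : ∃ q : ℚ, M.trace = (q : ℂ) := by
  unfold S at hM
  induction hM using Submodule.span_induction with
  | mem x hx =>
    obtain ⟨g, rfl⟩ := hx
    exact ht g
  | zero => exact ⟨0, by simp⟩
  | add x y _ _ h1 h2 =>
    obtain ⟨p, hp⟩ := h1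
    obtain ⟨q, hq⟩ := h2
    exact ⟨p + q, by rw [Matrix.trace_add, hp, hq]; push_cast; ring⟩
  | smul c x _ h1 =>
    obtain ⟨p, hp⟩ := h1
    exact ⟨c * p, by rw [Matrix.trace_smul, hp, Rat.smul_def]; push_cast; ring⟩

lemma inj_of (ρ : G →* GL (Fin 2) ℂ) (hρ : Irr ρ) (K : M2) (hK : K ≠ 0)
    (hinv : ∀ g v, K *ᵥ v = 0 → K *ᵥ ((ρ g : M2) *ᵥ v) = 0) : ∀ v, K *ᵥ v = 0 → v = 0 := by
  rcases hρ.2 (LinearMap.ker (Matrix.mulVecLin K)) (by
    intro g w hw
    rw [LinearMap.mem_ker, Matrix.mulVecLin_apply] at *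
    exact hinv g w hw) with h | h
  · intro v hv
    have : v ∈ LinearMap.ker (Matrix.mulVecLin K) := by
      rw [LinearMap.mem_ker, Matrix.mulVecLin_apply]; exact hv
    rw [h, Submodule.mem_bot] at this
    exact this
  · exfalso
    apply hK
    have h2 : Matrix.mulVecLin K = 0 := LinearMap.ker_eq_top.1 h
    ext i j
    have h3 := congrFun (LinearMap.congr_fun h2 (Pi.single j 1)) i
    simpa using h3

lemma no_nil (ρ : G →* GL (Fin 2) ℂ) (hρ : Irr ρ) (K : M2) (hK : K ≠ 0) (hK2 : K * K = 0)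
    (hinv : ∀ g v, K *ᵥ v = 0 → K *ᵥ ((ρ g : M2) *ᵥ v) = 0) : False := by
  have h := inj_of ρ hρ K hK hinv
  apply hK
  have h1 : ∀ v, K *ᵥ v = 0 := by
    intro v
    apply h
    rw [Matrix.mulVec_mulVec, hK2, Matrix.zero_mulVec]
  ext i j
  have h3 := congrFun (h1 (Pi.single j 1)) i
  simpa using h3

/-- Traceless part. -/
lemma decomp (ρ : G →* GL (Fin 2) ℂ) (ht : ∀ g, ∃ q : ℚ, (ρ g : M2).trace = (q : ℂ)) {M : M2}
    (hM : M ∈ S ρ) : ∃ (q : ℚ) (Z : M2), Z ∈ S ρ ∧ Z.trace = 0 ∧ M = (q : ℂ) • (1 : M2) + Z := by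
  obtain ⟨t, h⟩ := tr_rat ρ ht hM
  refine ⟨t / 2, M - ((t / 2 : ℚ) : ℂ) • (1 : M2), ?_, ?_, by simp⟩
  · exact Submodule.sub_mem _ hM (smul_mem ρ _ (one_mem ρ))
  · rw [Matrix.trace_sub, Matrix.trace_smul, h]
    simp

lemma inv_of (ρ : G →* GL (Fin 2) ℂ) (ht : ∀ g, ∃ q : ℚ, (ρ g : M2).trace = (q : ℂ)) (K : M2)
    (h : ∀ Z ∈ S ρ, Z.trace = 0 → ∀ v, K *ᵥ v = 0 → K *ᵥ (Z *ᵥ v) = 0) :
    ∀ g v, K *ᵥ v = 0 → K *ᵥ ((ρ g : M2) *ᵥ v) = 0 := by
  intro g v hv
  obtain ⟨q, Z, hZ, hZ0, hg⟩ := decomp ρ ht (mem_S ρ g)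
  rw [hg, Matrix.add_mulVec, Matrix.mulVec_add, h Z hZ hZ0 v hv, Matrix.smul_mulVec,
    Matrix.one_mulVec, Matrix.mulVec_smul, hv]
  simp

lemma sq_of (X : M2) (hX : X.trace = 0) : X * X = ((X * X).trace / 2) • (1 : M2) := by
  have h := anti X X hX hX
  rw [← two_smul ℂ (X * X)] at h
  have h2 : X * X = (2⁻¹ : ℂ) • ((2 : ℂ) • (X * X)) := by rw [smul_smul]; norm_num
  conv_lhs => rw [h2, h, smul_smul]
  congr 1
  ring

lemma exists_x (ρ : G →* GL (Fin 2) ℂ) (hρ : Irr ρ)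
    (ht : ∀ g, ∃ q : ℚ, (ρ g : M2).trace = (q : ℂ)) :
    ∃ (a : ℚ) (x : M2), a ≠ 0 ∧ x ∈ S ρ ∧ x.trace = 0 ∧ x * x = (a : ℂ) • (1 : M2) := by
  by_contra hno
  push_neg at hno
  have h1 : ∀ X ∈ S ρ, X.trace = 0 → X * X = 0 := by
    intro X hX hX0
    obtain ⟨q, hq⟩ := tr_rat ρ ht (mul_mem ρ hX hX)
    have h2 := sq_of X hX0
    by_cases h0 : q = 0
    · rw [h2, hq, h0]; simp
    · exfalso
      refine hno (q / 2) X (by simpa using h0) hX hX0 ?_
      rw [h2, hq]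
      simp
  have h2 : ∀ X ∈ S ρ, X.trace = 0 → ∀ Y ∈ S ρ, Y.trace = 0 → X * Y = -(Y * X) := by
    intro X hX hX0 Y hY hY0
    have := h1 (X + Y) (Submodule.add_mem _ hX hY) (by rw [Matrix.trace_add, hX0, hY0, add_zero])
    have h3 : (X + Y) * (X + Y) = X * X + Y * Y + (X * Y + Y * X) := by noncomm_ring
    rw [h3, h1 X hX hX0, h1 Y hY hY0, add_zero, zero_add] at this
    exact eq_neg_of_add_eq_zero_left this
  by_cases hX : ∃ X ∈ S ρ, X.trace = 0 ∧ X ≠ 0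
  · obtain ⟨X, hX, hX0, hne⟩ := hX
    refine no_nil ρ hρ X hne (h1 X hX hX0) (inv_of ρ ht X ?_)
    intro Z hZ hZ0 v hv
    rw [Matrix.mulVec_mulVec, h2 X hX hX0 Z hZ hZ0, Matrix.neg_mulVec, ← Matrix.mulVec_mulVec, hv]
    simp
  · push_neg at hX
    refine no_nil ρ hρ !![0, 1; 0, 0] ?_ ?_ (inv_of ρ ht _ ?_)
    · intro h
      have := congrFun (congrFun h 0) 1
      simp at this
    · ext i j
      fin_cases i <;> fin_cases j <;> simp
    · intro Z hZ hZ0 v hv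
      rw [hX Z hZ hZ0]
      simp

lemma exists_y (ρ : G →* GL (Fin 2) ℂ) (hρ : Irr ρ)
    (ht : ∀ g, ∃ q : ℚ, (ρ g : M2).trace = (q : ℂ)) (a : ℚ) (x : M2) (ha : a ≠ 0) (hx : x ∈ S ρ)
    (hx0 : x.trace = 0) (hxx : x * x = (a : ℂ) • (1 : M2)) :
    ∃ (b : ℚ) (y : M2), b ≠ 0 ∧ y ∈ S ρ ∧ y.trace = 0 ∧ y * y = (b : ℂ) • (1 : M2) ∧
      x * y = -(y * x) := by
  by_contra hno
  push_neg at hno
  have haC : (a : ℂ) ≠ 0 := by exact_mod_cast ha
  have h1 : ∀ X ∈ S ρ, X.trace = 0 → x * X = -(X * x) → X * X = 0 := by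
    intro X hX hX0 hxX
    obtain ⟨q, hq⟩ := tr_rat ρ ht (mul_mem ρ hX hX)
    have h2 := sq_of X hX0
    by_cases h0 : q = 0
    · rw [h2, hq, h0]; simp
    · exfalso
      refine hno (q / 2) X (by simpa using h0) hX hX0 ?_ hxX
      rw [h2, hq]
      simp
  have h2 : ∀ X ∈ S ρ, X.trace = 0 → x * X = -(X * x) →
      ∀ Y ∈ S ρ, Y.trace = 0 → x * Y = -(Y * x) → X * Y = -(Y * X) := by
    intro X hX hX0 hxX Y hY hY0 hxY
    have := h1 (X + Y) (Submodule.add_mem _ hX hY) (by rw [Matrix.trace_add, hX0, hY0, add_zero])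
      (by rw [mul_add, add_mul, hxX, hxY, neg_add])
    have h3 : (X + Y) * (X + Y) = X * X + Y * Y + (X * Y + Y * X) := by noncomm_ring
    rw [h3, h1 X hX hX0 hxX, h1 Y hY hY0 hxY, add_zero, zero_add] at this
    exact eq_neg_of_add_eq_zero_left this
  -- projection
  have hproj : ∀ Z ∈ S ρ, Z.trace = 0 → ∃ (c : ℂ) (Y : M2), Y ∈ S ρ ∧ Y.trace = 0 ∧
      x * Y = -(Y * x) ∧ Z = c • x + Y := by
    intro Z hZ hZ0
    obtain ⟨q, hq⟩ := tr_rat ρ ht (mul_mem ρ hZ hx)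
    refine ⟨((q / (2 * a) : ℚ) : ℂ), Z - ((q / (2 * a) : ℚ) : ℂ) • x, ?_, ?_, ?_, by simp⟩
    · exact Submodule.sub_mem _ hZ (smul_mem ρ _ hx)
    · rw [Matrix.trace_sub, Matrix.trace_smul, hZ0, hx0]; simp
    · have h3 := anti Z x hZ0 hx0
      rw [hq] at h3
      rw [eq_neg_iff_add_eq_zero, mul_sub, sub_mul, Matrix.mul_smul, Matrix.smul_mul, hxx]
      have h4 : x * Z + Z * x = (q : ℂ) • (1 : M2) := by rw [add_comm]; exact h3
      have h5 : x * Z - ((q / (2 * a) : ℚ) : ℂ) • ((a : ℂ) • (1 : M2)) +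
          (Z * x - ((q / (2 * a) : ℚ) : ℂ) • ((a : ℂ) • (1 : M2))) =
          (x * Z + Z * x) - (2 * ((q / (2 * a) : ℚ) : ℂ) * (a : ℂ)) • (1 : M2) := by
        module
      rw [h5, h4, ← sub_smul]
      have h6 : (q : ℂ) - 2 * ((q / (2 * a) : ℚ) : ℂ) * (a : ℂ) = 0 := by
        push_cast
        field_simp
        ring
      rw [h6, zero_smul]
  by_cases hY : ∃ Y ∈ S ρ, Y.trace = 0 ∧ x * Y = -(Y * x) ∧ Y ≠ 0
  · obtain ⟨Y, hY, hY0, hxY, hne⟩ := hY
    refine no_nil ρ hρ Y hne (h1 Y hY hY0 hxY) (inv_of ρ ht Y ?_)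
    intro Z hZ hZ0 v hv
    obtain ⟨c, Y', hY', hY'0, hxY', rfl⟩ := hproj Z hZ hZ0
    have e1 : Y * x = -(x * Y) := by rw [hxY, neg_neg]
    rw [Matrix.mulVec_mulVec, mul_add, Matrix.mul_smul, e1, h2 Y hY hY0 hxY Y' hY' hY'0 hxY',
      Matrix.add_mulVec, Matrix.smul_mulVec, Matrix.neg_mulVec, Matrix.neg_mulVec,
      ← Matrix.mulVec_mulVec, ← Matrix.mulVec_mulVec, hv]
    simp
  · push_neg at hY
    obtain ⟨s, hs⟩ := IsAlgClosed.exists_pow_nat_eq (a : ℂ) (n := 2) (by norm_num)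
    have hs0 : s ≠ 0 := by
      rintro rfl
      apply haC
      rw [← hs]; ring
    have hne : ∀ e : ℂ, x ≠ e • (1 : M2) := by
      intro e he
      rw [he, Matrix.trace_smul] at hx0
      have he0 : e = 0 := by simpa using hx0
      rw [he, he0, zero_smul, zero_mul] at hxx
      have := congrFun (congrFun hxx 0) 0
      simp at this
      exact haC this.symm
    have hK : x - s • (1 : M2) ≠ 0 := fun h => hne s (sub_eq_zero.1 h)
    have hi := inj_of ρ hρ (x - s • (1 : M2)) hK (inv_of ρ ht _ (by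
      intro Z hZ hZ0 v hv
      obtain ⟨c, Y', hY', hY'0, hxY', rfl⟩ := hproj Z hZ hZ0
      rw [hY Y' hY' hY'0 hxY', add_zero, Matrix.mulVec_mulVec]
      have : (x - s • (1 : M2)) * (c • x) = (c • x) * (x - s • (1 : M2)) := by
        simp only [sub_mul, mul_sub, Matrix.smul_mul, Matrix.mul_smul, one_mul, mul_one]
        module
      rw [this, ← Matrix.mulVec_mulVec, hv]
      simp))
    apply hne (-s)
    have h3 : ∀ v, (x + s • (1 : M2)) *ᵥ v = 0 := by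
      intro v
      apply hi
      rw [Matrix.mulVec_mulVec]
      have : (x - s • (1 : M2)) * (x + s • (1 : M2)) = 0 := by
        have e : (x - s • (1 : M2)) * (x + s • (1 : M2)) = x * x - (s ^ 2) • (1 : M2) := by
          simp only [sub_mul, mul_add, Matrix.smul_mul, Matrix.mul_smul, one_mul, mul_one, pow_two]
          module
        rw [e, hs, hxx, sub_self]
      rw [this, Matrix.zero_mulVec]
    have h4 : x + s • (1 : M2) = 0 := by
      ext i j
      have h3 := congrFun (h3 (Pi.single j 1)) i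
      simpa using h3
    rw [neg_smul]
    exact eq_neg_of_add_eq_zero_left h4

theorem piece : S_QB.{u} := by
  intro G _ ρ hρ _ ht
  obtain ⟨a, x, ha, hx, hx0, hxx⟩ := exists_x ρ hρ ht
  obtain ⟨b, y, hb, hy, hy0, hyy, hxy⟩ := exists_y ρ hρ ht a x ha hx hx0 hxx
  have haC : (a : ℂ) ≠ 0 := by exact_mod_cast ha
  have hbC : (b : ℂ) ≠ 0 := by exact_mod_cast hb
  refine ⟨a, b, x, y, ⟨ha, hb, hxx, hyy, hxy⟩, fun g => ?_⟩
  have hg := mem_S ρ g
  obtain ⟨t0, h0⟩ := tr_rat ρ ht hg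
  obtain ⟨t1, h1⟩ := tr_rat ρ ht (mul_mem ρ hg hx)
  obtain ⟨t2, h2⟩ := tr_rat ρ ht (mul_mem ρ hg hy)
  obtain ⟨t3, h3⟩ := tr_rat ρ ht (mul_mem ρ hg (mul_mem ρ hx hy))
  have txy : (x * y).trace = 0 := by
    have h : (x * y).trace = -(x * y).trace := by
      conv_lhs => rw [hxy]
      rw [Matrix.trace_neg, Matrix.trace_mul_comm]
    have : (2 : ℂ) * (x * y).trace = 0 := by linear_combination h
    simpa using this
  refine ⟨t0 / 2, t1 / (2 * a), t2 / (2 * b), -(t3 / (2 * a * b)), ?_⟩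
  rw [← sub_eq_zero]
  have yx : y * x = -(x * y) := by rw [hxy, neg_neg]
  have xyx : x * y * x = -((a : ℂ) • y) := by
    rw [mul_assoc, yx, mul_neg, ← mul_assoc, hxx]; simp
  have xyy : x * y * y = (b : ℂ) • x := by rw [mul_assoc, hyy]; simp
  have xxy : x * (x * y) = (a : ℂ) • y := by rw [← mul_assoc, hxx]; simp
  have yxy : y * (x * y) = -((b : ℂ) • x) := by
    rw [← mul_assoc, yx, neg_mul, xyy]
  have xyxy : x * y * (x * y) = -(((a : ℂ) * b) • (1 : M2)) := by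
    rw [← mul_assoc, xyx, neg_mul, Matrix.smul_mul, hyy, smul_smul]
  refine eq_zero_of x y _ a b haC hbC hxx hyy hxy hx0 hy0 ?_ ?_ ?_ ?_
  · simp only [qel, Matrix.trace_sub, Matrix.trace_add, Matrix.trace_smul, h0, hx0, hy0, txy]
    simp
  · simp only [qel, sub_mul, add_mul, Matrix.smul_mul, one_mul, Matrix.trace_sub, Matrix.trace_add,
      Matrix.trace_smul, h1, hx0, hy0, hxx, yx, xyx, Matrix.trace_neg, txy]
    simp
    field_simp
    ring
  · simp only [qel, sub_mul, add_mul, Matrix.smul_mul, one_mul, Matrix.trace_sub, Matrix.trace_add,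
      Matrix.trace_smul, h2, hx0, hy0, hyy, xyy, Matrix.trace_neg, txy]
    simp
    field_simp
    ring
  · simp only [qel, sub_mul, add_mul, Matrix.smul_mul, one_mul, Matrix.trace_sub, Matrix.trace_add,
      Matrix.trace_smul, h3, hx0, hy0, xxy, yxy, xyxy, Matrix.trace_neg, txy]
    simp
    field_simp
    ring

end Pool.Agent.R693.SU.QBown
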