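import Pool.Agent.R693.SU.Stm

set_option autoImplicit false

open Matrix

namespace Pool.Agent.R693.SU

universe u

namespace QBx

abbrev MM : Type := Matrix (Fin 2) (Fin 2) ℂ

theorem anti {X Y : MM} (hX : X.trace = 0) (hY : Y.trace = 0) :
    X * Y + Y * X = (X * Y).trace • 1 := by
  rw [Matrix.trace_fin_two] at hX hY ⊢
  have h1 : X 1 1 = - X 0 0 := by linear_combination hX
  have h2 : Y 1 1 = - Y 0 0 := by linear_combination hY
  ext i j
  fin_cases i <;> fin_cases j <;>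
    simp [Matrix.mul_apply, Fin.sum_univ_two, h1, h2] <;> ring

theorem sq_of_trace {X : MM} (hX : X.trace = 0) : X * X = ((X * X).trace / 2) • 1 := by
  have h := anti hX hX
  have h2 : (2 : ℂ) • (X * X) = (X * X).trace • (1 : MM) := by rw [two_smul]; exact h
  calc X * X = (2 : ℂ)⁻¹ • ((2 : ℂ) • (X * X)) := by rw [smul_smul]; norm_num
    _ = ((X * X).trace / 2) • 1 := by rw [h2, smul_smul]; congr 1; ring

theorem ch {M : MM} (h : M.det = 1) : M * M = M.trace • M - 1 := by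
  rw [Matrix.det_fin_two] at h
  ext i j
  fin_cases i <;> fin_cases j <;>
    simp [Matrix.mul_apply, Fin.sum_univ_two, Matrix.trace_fin_two] <;>
    first
      | linear_combination -h
      | linear_combination h
      | ring1

theorem par {A : MM} (hA : A ≠ 0) {u u' : Fin 2 → ℂ} (h : A *ᵥ u = 0) (h' : A *ᵥ u' = 0)
    (hu : u' ≠ 0) : ∃ k : ℂ, u = k • u' := by
  have e0 := congrFun h 0
  have e1 := congrFun h 1
  have f0 := congrFun h' 0
  have f1 := congrFun h' 1
  simp only [Matrix.mulVec, dotProduct, Fin.sum_univ_two, Pi.zero_apply] at e0 e1 f0 f1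
  have hΔ : u 0 * u' 1 - u 1 * u' 0 = 0 := by
    by_contra hΔ
    apply hA
    have k00 : A 0 0 * (u 0 * u' 1 - u 1 * u' 0) = 0 := by
      linear_combination u' 1 * e0 - u 1 * f0
    have k01 : A 0 1 * (u 0 * u' 1 - u 1 * u' 0) = 0 := by
      linear_combination -(u' 0) * e0 + u 0 * f0
    have k10 : A 1 0 * (u 0 * u' 1 - u 1 * u' 0) = 0 := by
      linear_combination u' 1 * e1 - u 1 * f1
    have k11 : A 1 1 * (u 0 * u' 1 - u 1 * u' 0) = 0 := by
      linear_combination -(u' 0) * e1 + u 0 * f1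
    have l00 := (mul_eq_zero.1 k00).resolve_right hΔ
    have l01 := (mul_eq_zero.1 k01).resolve_right hΔ
    have l10 := (mul_eq_zero.1 k10).resolve_right hΔ
    have l11 := (mul_eq_zero.1 k11).resolve_right hΔ
    ext i j
    fin_cases i <;> fin_cases j <;> simp [l00, l01, l10, l11]
  have hne : u' 0 ≠ 0 ∨ u' 1 ≠ 0 := by
    by_contra hh
    push Not at hh
    apply hu
    ext i
    fin_cases i
    exacts [hh.1, hh.2]
  rcases hne with h0 | h0
  · refine ⟨u 0 / u' 0, ?_⟩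
    ext i
    fin_cases i
    · change u 0 = u 0 / u' 0 * u' 0
      field_simp
    · change u 1 = u 0 / u' 0 * u' 1
      field_simp
      linear_combination -hΔ
  · refine ⟨u 1 / u' 1, ?_⟩
    ext i
    fin_cases i
    · change u 0 = u 1 / u' 1 * u' 0
      field_simp
      linear_combination hΔ
    · change u 1 = u 1 / u' 1 * u' 1
      field_simp

theorem ex_vec {A : MM} (hA : A ≠ 0) : ∃ w : Fin 2 → ℂ, A *ᵥ w ≠ 0 := by
  by_contra hcc
  push Not at hcc
  apply hA
  ext i j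
  have := congrFun (hcc (Pi.single j 1)) i
  simpa using this

section

variable {G : Type u} [Group G]

/-- The line of `v` is fixed by `h`. -/
def Fx (ρ : G →* GL (Fin 2) ℂ) (v : Fin 2 → ℂ) (h : G) : Prop :=
  ∃ c : ℂ, (ρ h : MM) *ᵥ v = c • v

theorem Fx.mul {ρ : G →* GL (Fin 2) ℂ} {v : Fin 2 → ℂ} {h k : G} (hh : Fx ρ v h)
    (hk : Fx ρ v k) : Fx ρ v (h * k) := by
  obtain ⟨c, hc⟩ := hh
  obtain ⟨d, hd⟩ := hk
  refine ⟨d * c, ?_⟩
  rw [map_mul, Units.val_mul, ← Matrix.mulVec_mulVec, hd, Matrix.mulVec_smul, hc, smul_smul]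

theorem Fx.inv {ρ : G →* GL (Fin 2) ℂ} {v : Fin 2 → ℂ} {h : G} (hv : v ≠ 0)
    (hh : Fx ρ v h) : Fx ρ v h⁻¹ := by
  obtain ⟨c, hc⟩ := hh
  have h1 : (ρ h⁻¹ : MM) *ᵥ ((ρ h : MM) *ᵥ v) = v := by
    rw [Matrix.mulVec_mulVec, ← Units.val_mul, ← map_mul, inv_mul_cancel, map_one,
      Units.val_one, Matrix.one_mulVec]
  rw [hc, Matrix.mulVec_smul] at h1
  have hc0 : c ≠ 0 := by
    rintro rfl
    rw [zero_smul] at h1
    exact hv h1.symm
  refine ⟨c⁻¹, ?_⟩
  calc (ρ h⁻¹ : MM) *ᵥ v = c⁻¹ • (c • ((ρ h⁻¹ : MM) *ᵥ v)) := by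
        rw [smul_smul, inv_mul_cancel₀ hc0, one_smul]
    _ = c⁻¹ • v := by rw [h1]

theorem noeig {ρ : G →* GL (Fin 2) ℂ} (hI : Irr ρ) {v : Fin 2 → ℂ} (hv : v ≠ 0) :
    ∃ h, ¬ Fx ρ v h := by
  by_contra hcon
  push Not at hcon
  rcases hI.2 (Submodule.span ℂ {v}) (fun g w hw => by
    obtain ⟨k, rfl⟩ := Submodule.mem_span_singleton.1 hw
    obtain ⟨c, hc⟩ := hcon g
    rw [Matrix.mulVec_smul, hc, smul_smul]
    exact Submodule.smul_mem _ _ (Submodule.mem_span_singleton_self v)) with h | h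
  · exact hv (Submodule.span_singleton_eq_bot.1 h)
  · have h1 := finrank_span_singleton (K := ℂ) hv
    rw [h, finrank_top, Module.finrank_fin_fun] at h1
    omega

theorem step1 {ρ : G →* GL (Fin 2) ℂ} (hI : Irr ρ) (hd : ∀ g, (ρ g : MM).det = 1) :
    ∃ g, (ρ g : MM).trace ^ 2 ≠ 4 := by
  by_contra hcon
  push Not at hcon
  have hXt : ∀ g, ((ρ g : MM) - ((ρ g : MM).trace / 2) • (1 : MM)).trace = 0 := fun g => by
    rw [Matrix.trace_sub, Matrix.trace_smul, Matrix.trace_one]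
    simp
  have htr : ∀ g h, (((ρ g : MM) - ((ρ g : MM).trace / 2) • (1 : MM)) *
      ((ρ h : MM) - ((ρ h : MM).trace / 2) • (1 : MM))).trace = 0 := by
    intro g h
    have e : (((ρ g : MM) - ((ρ g : MM).trace / 2) • (1 : MM)) *
      ((ρ h : MM) - ((ρ h : MM).trace / 2) • (1 : MM))).trace =
        (ρ (g * h) : MM).trace - (ρ g : MM).trace * (ρ h : MM).trace / 2 := by
      rw [map_mul, Units.val_mul]
      simp only [sub_mul, mul_sub, Matrix.trace_sub, smul_mul_assoc, mul_smul_comm, one_mul,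
        mul_one, Matrix.trace_smul, Matrix.trace_one, Fintype.card_fin, smul_eq_mul]
      push_cast
      ring
    have s1 : (ρ (g * (g * h)) : MM).trace =
        (ρ g : MM).trace * (ρ (g * h) : MM).trace - (ρ h : MM).trace := by
      rw [map_mul, map_mul, Units.val_mul, Units.val_mul, ← mul_assoc, ch (hd g), sub_mul,
        Matrix.trace_sub, smul_mul_assoc, Matrix.trace_smul, one_mul, smul_eq_mul]
    rw [e]
    have hA := hcon g
    have hB := hcon h
    have hC := hcon (g * h)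
    have hD := hcon (g * (g * h))
    rw [s1] at hD
    refine pow_eq_zero_iff (two_ne_zero) |>.1 ?_
    linear_combination ((ρ h : MM).trace ^ 2 / 4 - (ρ (g * h) : MM).trace ^ 2 / 2) * hA +
      (1 / 2) * hB - hC + (1 / 2) * hD
  by_cases hz : ∀ g, (ρ g : MM) - ((ρ g : MM).trace / 2) • (1 : MM) = 0
  · obtain ⟨h, hh⟩ := noeig hI (v := ![1, 0]) (fun h0 => by
      have := congrFun h0 0
      simp at this)
    apply hh
    refine ⟨(ρ h : MM).trace / 2, ?_⟩
    have h1 := sub_eq_zero.1 (hz h)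
    calc (ρ h : MM) *ᵥ ![1, 0] = (((ρ h : MM).trace / 2) • (1 : MM)) *ᵥ ![1, 0] := by rw [← h1]
      _ = _ := by rw [Matrix.smul_mulVec, Matrix.one_mulVec]
  · push Not at hz
    obtain ⟨g, hg⟩ := hz
    obtain ⟨w, hw⟩ := ex_vec hg
    obtain ⟨h, hh⟩ := noeig hI hw
    apply hh
    set X : MM := (ρ g : MM) - ((ρ g : MM).trace / 2) • (1 : MM) with hX
    set Y : MM := (ρ h : MM) - ((ρ h : MM).trace / 2) • (1 : MM) with hY
    have hX2 : X * X = 0 := by
      rw [sq_of_trace (hXt g), htr g g]; simp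
    have hv0 : X *ᵥ (X *ᵥ w) = 0 := by rw [Matrix.mulVec_mulVec, hX2, Matrix.zero_mulVec]
    have hXY : X * Y = -(Y * X) := by
      have := anti (hXt g) (hXt h)
      rw [htr g h, zero_smul] at this
      exact eq_neg_of_add_eq_zero_left this
    have hvv : X *ᵥ (Y *ᵥ (X *ᵥ w)) = 0 := by
      rw [Matrix.mulVec_mulVec, hXY, Matrix.neg_mulVec, ← Matrix.mulVec_mulVec, hv0,
        Matrix.mulVec_zero, neg_zero]
    obtain ⟨k, hk⟩ := par hg hvv hv0 hw
    refine ⟨k + (ρ h : MM).trace / 2, ?_⟩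
    have e : (ρ h : MM) = Y + ((ρ h : MM).trace / 2) • (1 : MM) := by rw [hY]; simp
    rw [e, Matrix.add_mulVec, hk, Matrix.smul_mulVec, Matrix.one_mulVec, ← add_smul, ← e]

theorem e_lem {x y : MM} {s : ℂ} (hxy : x * y = -(y * x)) :
    (x + s • (1 : MM)) * y = -(y * (x - s • (1 : MM))) := by
  rw [add_mul, hxy, mul_sub, smul_mul_assoc, mul_smul_comm, one_mul, mul_one]
  abel

theorem step2 {ρ : G →* GL (Fin 2) ℂ} (hI : Irr ρ)
    {x : MM} {a : ℂ} (ha : a ≠ 0) (hxt : x.trace = 0) (hx2 : x * x = a • (1 : MM)) :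
    ∃ h, ∀ Y : MM, Y = (ρ h : MM) - ((ρ h : MM).trace / 2) • (1 : MM) →
      ((Y - ((Y * x).trace / (2 * a)) • x) * (Y - ((Y * x).trace / (2 * a)) • x)).trace ≠ 0 := by
  by_contra hcon
  push Not at hcon
  obtain ⟨s, hs⟩ := IsAlgClosed.exists_pow_nat_eq a (n := 2) (by norm_num)
  have hs0 : s ≠ 0 := by
    rintro rfl
    exact ha (by rw [← hs]; norm_num)
  have hP : x + s • (1 : MM) ≠ 0 := fun h => by
    have := congrArg Matrix.trace h
    rw [Matrix.trace_add, hxt, Matrix.trace_smul, Matrix.trace_one] at this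
    simp [hs0] at this
  have hN : x - s • (1 : MM) ≠ 0 := fun h => by
    have := congrArg Matrix.trace h
    rw [Matrix.trace_sub, hxt, Matrix.trace_smul, Matrix.trace_one] at this
    simp [hs0] at this
  have hNP : (x - s • (1 : MM)) * (x + s • (1 : MM)) = 0 := by
    have : (x - s • (1 : MM)) * (x + s • (1 : MM)) = x * x - (s ^ 2) • (1 : MM) := by
      simp only [sub_mul, mul_add, smul_mul_assoc, mul_smul_comm, one_mul, mul_one, smul_add,
        smul_sub, smul_smul, pow_two]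
      abel
    rw [this, hx2, hs, sub_self]
  have hPN : (x + s • (1 : MM)) * (x - s • (1 : MM)) = 0 := by
    have : (x + s • (1 : MM)) * (x - s • (1 : MM)) = x * x - (s ^ 2) • (1 : MM) := by
      simp only [add_mul, mul_sub, smul_mul_assoc, mul_smul_comm, one_mul, mul_one, smul_add,
        smul_sub, smul_smul, pow_two]
      abel
    rw [this, hx2, hs, sub_self]
  obtain ⟨w, hw⟩ := ex_vec hP
  obtain ⟨w', hw'⟩ := ex_vec hN
  set v := (x + s • (1 : MM)) *ᵥ w with hv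
  set v' := (x - s • (1 : MM)) *ᵥ w' with hv'
  have nv : (x - s • (1 : MM)) *ᵥ v = 0 := by
    rw [hv, Matrix.mulVec_mulVec, hNP, Matrix.zero_mulVec]
  have pv' : (x + s • (1 : MM)) *ᵥ v' = 0 := by
    rw [hv', Matrix.mulVec_mulVec, hPN, Matrix.zero_mulVec]
  have xv : x *ᵥ v = s • v := by
    rw [Matrix.sub_mulVec, Matrix.smul_mulVec, Matrix.one_mulVec] at nv
    exact sub_eq_zero.1 nv
  have xv' : x *ᵥ v' = (-s) • v' := by
    rw [Matrix.add_mulVec, Matrix.smul_mulVec, Matrix.one_mulVec] at pv'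
    rw [neg_smul]
    exact eq_neg_of_add_eq_zero_left pv'
  have key : ∀ h, Fx ρ v h ∨ Fx ρ v' h := by
    intro h
    obtain ⟨Y, hY, h0⟩ := hcon h
    set c : ℂ := (Y * x).trace / (2 * a) with hc
    set y : MM := Y - c • x with hy
    have hYt : Y.trace = 0 := by
      rw [hY, Matrix.trace_sub, Matrix.trace_smul, Matrix.trace_one]
      simp
    have hyt : y.trace = 0 := by rw [hy, Matrix.trace_sub, Matrix.trace_smul, hYt, hxt]; simp
    have hy2 : y * y = 0 := by rw [sq_of_trace hyt, h0]; simp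
    have hyx : (x * y).trace = 0 := by
      rw [hy, mul_sub, Matrix.trace_sub, mul_smul_comm, Matrix.trace_smul, hx2,
        Matrix.trace_smul, Matrix.trace_one, Matrix.trace_mul_comm x Y, hc]
      simp only [Fintype.card_fin, smul_eq_mul]
      push_cast
      field_simp
      ring
    have hxy : x * y = -(y * x) := by
      have := anti hxt hyt
      rw [hyx, zero_smul] at this
      exact eq_neg_of_add_eq_zero_left this
    have fx : ∀ (u : Fin 2 → ℂ) (m : ℂ), x *ᵥ u = m • u → y *ᵥ u = 0 → Fx ρ u h := by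
      intro u m h1 h2
      refine ⟨c * m + (ρ h : MM).trace / 2, ?_⟩
      have e : (ρ h : MM) = y + c • x + ((ρ h : MM).trace / 2) • (1 : MM) := by
        rw [hy, hY]; simp
      rw [e, Matrix.add_mulVec, Matrix.add_mulVec, h2, Matrix.smul_mulVec, h1,
        Matrix.smul_mulVec, Matrix.one_mulVec, ← e, zero_add, smul_smul, ← add_smul]
    have pyv : (x + s • (1 : MM)) *ᵥ (y *ᵥ v) = 0 := by
      have e : (x + s • (1 : MM)) * y = -(y * (x - s • (1 : MM))) := e_lem hxy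
      rw [Matrix.mulVec_mulVec, e, Matrix.neg_mulVec, ← Matrix.mulVec_mulVec, nv,
        Matrix.mulVec_zero, neg_zero]
    obtain ⟨k, hk⟩ := par hP pyv pv' hw'
    by_cases hk0 : k = 0
    · left
      refine fx v s xv ?_
      rw [hk, hk0, zero_smul]
    · right
      refine fx v' (-s) xv' ?_
      have h1 : y *ᵥ (y *ᵥ v) = 0 := by rw [Matrix.mulVec_mulVec, hy2, Matrix.zero_mulVec]
      rw [hk, Matrix.mulVec_smul] at h1
      exact (smul_eq_zero.1 h1).resolve_left hk0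
  obtain ⟨h1, n1⟩ := noeig hI hw
  obtain ⟨h2, n2⟩ := noeig hI hw'
  have f1 : Fx ρ v' h1 := (key h1).resolve_left n1
  have f2 : Fx ρ v h2 := (key h2).resolve_right n2
  rcases key (h1 * h2) with h | h
  · apply n1
    have := h.mul (f2.inv hw)
    rwa [mul_inv_cancel_right] at this
  · apply n2
    have := (f1.inv hw').mul h
    rwa [inv_mul_cancel_left] at this

end

/-- Coordinates in a quaternion basis. -/
theorem coords {x y : MM} {a b : ℂ} (ha : a ≠ 0) (hb : b ≠ 0) (hx2 : x * x = a • (1 : MM))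
    (hy2 : y * y = b • (1 : MM)) (hxy : x * y = -(y * x)) (hxt : x.trace = 0)
    (hyt : y.trace = 0) (hxyt : (x * y).trace = 0) (M : MM) :
    M = (M.trace / 2) • (1 : MM) + ((M * x).trace / (2 * a)) • x +
      ((M * y).trace / (2 * b)) • y + (-(M * (x * y)).trace / (2 * a * b)) • (x * y) := by
  have tyx : (y * x).trace = 0 := by rw [Matrix.trace_mul_comm]; exact hxyt
  have txx : (x * x).trace = 2 * a := by
    rw [hx2, Matrix.trace_smul, Matrix.trace_one]; simp [mul_comm]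
  have tyy : (y * y).trace = 2 * b := by
    rw [hy2, Matrix.trace_smul, Matrix.trace_one]; simp [mul_comm]
  have exyx : x * y * x = -(a • y) := by
    rw [hxy, neg_mul, mul_assoc, hx2, mul_smul_comm, mul_one]
  have exyy : x * y * y = b • x := by rw [mul_assoc, hy2, mul_smul_comm, mul_one]
  have exxy : x * (x * y) = a • y := by rw [← mul_assoc, hx2, smul_mul_assoc, one_mul]
  have eyxy : y * (x * y) = -(b • x) := by
    rw [hxy, mul_neg, ← mul_assoc, hy2, smul_mul_assoc, one_mul]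
  have exyxy : x * y * (x * y) = -((a * b) • (1 : MM)) := by
    rw [← mul_assoc, exyx, neg_mul, smul_mul_assoc, hy2, smul_smul]
  have tr4 : ∀ c : Fin 4 → ℂ, ∀ N : MM, N = c 0 • (1 : MM) + c 1 • x + c 2 • y + c 3 • (x * y) →
      N.trace = 2 * c 0 ∧ (N * x).trace = 2 * a * c 1 ∧ (N * y).trace = 2 * b * c 2 ∧
        (N * (x * y)).trace = -(2 * a * b * c 3) := by
    rintro c N rfl
    refine ⟨?_, ?_, ?_, ?_⟩
    · simp only [Matrix.trace_add, Matrix.trace_smul, Matrix.trace_one, hxt, hyt, hxyt,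
        Fintype.card_fin, smul_eq_mul]
      push_cast; ring
    · simp only [add_mul, smul_mul_assoc, one_mul, exyx, Matrix.trace_add, Matrix.trace_smul,
        Matrix.trace_neg, txx, tyx, hxt, hyt, smul_eq_mul]
      ring
    · simp only [add_mul, smul_mul_assoc, one_mul, exyy, Matrix.trace_add, Matrix.trace_smul,
        Matrix.trace_neg, tyy, hxyt, hxt, hyt, smul_eq_mul]
      ring
    · simp only [add_mul, smul_mul_assoc, one_mul, exxy, eyxy, exyxy, Matrix.trace_add,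
        Matrix.trace_smul, Matrix.trace_neg, Matrix.trace_one, hxyt, hxt, hyt, smul_eq_mul,
        Fintype.card_fin]
      push_cast; ring
  have hli : LinearIndependent ℂ (![(1 : MM), x, y, x * y] : Fin 4 → MM) := by
    rw [Fintype.linearIndependent_iff]
    intro c hc
    have h0 : (0 : MM) = c 0 • (1 : MM) + c 1 • x + c 2 • y + c 3 • (x * y) := by
      rw [← hc]
      simp [Fin.sum_univ_succ]
      abel
    obtain ⟨t0, t1, t2, t3⟩ := tr4 c 0 h0
    simp only [zero_mul, Matrix.trace_zero] at t0 t1 t2 t3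
    intro i
    fin_cases i
    · simpa using t0.symm
    · simpa [ha] using t1.symm
    · simpa [hb] using t2.symm
    · have := t3.symm
      simpa [ha, hb] using this
  have hcard : Fintype.card (Fin 4) = Module.finrank ℂ MM := by
    rw [Module.finrank_matrix]; simp
  let B := basisOfLinearIndependentOfCardEqFinrank hli hcard
  have hsum := B.sum_repr M
  have hM : M = B.repr M 0 • (1 : MM) + B.repr M 1 • x + B.repr M 2 • y +
      B.repr M 3 • (x * y) := by
    conv_lhs => rw [← hsum]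
    simp only [B, coe_basisOfLinearIndependentOfCardEqFinrank]
    simp [Fin.sum_univ_succ]
    abel
  obtain ⟨t0, t1, t2, t3⟩ := tr4 (fun i => B.repr M i) M hM
  have r0 : M.trace / 2 = B.repr M 0 := by rw [t0]; field_simp
  have r1 : (M * x).trace / (2 * a) = B.repr M 1 := by rw [t1]; field_simp
  have r2 : (M * y).trace / (2 * b) = B.repr M 2 := by rw [t2]; field_simp
  have r3 : -(M * (x * y)).trace / (2 * a * b) = B.repr M 3 := by rw [t3]; field_simp
  rw [r0, r1, r2, r3]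
  exact hM

end QBx

open QBx in
theorem qb : S_QB.{u} := by
  intro G _ ρ hI hd hq
  obtain ⟨g, hg⟩ := step1 hI hd
  obtain ⟨tg, htg⟩ := hq g
  let R : MM → Prop := fun Z => ∀ k, ∃ q : ℚ, ((ρ k : MM) * Z).trace = (q : ℂ)
  have R1 : R 1 := fun k => by simpa using hq k
  have Rsmul : ∀ (q : ℚ) (Z : MM), R Z → R ((q : ℂ) • Z) := fun q Z hZ k => by
    obtain ⟨r, hr⟩ := hZ k
    refine ⟨q * r, ?_⟩
    rw [mul_smul_comm, Matrix.trace_smul, hr, smul_eq_mul]
    push_cast
    rfl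
  have Rsub : ∀ Z Z' : MM, R Z → R Z' → R (Z - Z') := fun Z Z' hZ hZ' k => by
    obtain ⟨r, hr⟩ := hZ k
    obtain ⟨r', hr'⟩ := hZ' k
    refine ⟨r - r', ?_⟩
    rw [mul_sub, Matrix.trace_sub, hr, hr']
    push_cast
    rfl
  have RM : ∀ (l : G) (Z : MM), R Z → R ((ρ l : MM) * Z) := fun l Z hZ k => by
    obtain ⟨r, hr⟩ := hZ (k * l)
    refine ⟨r, ?_⟩
    rw [← hr, map_mul, Units.val_mul, mul_assoc]
  obtain ⟨x, hx⟩ : ∃ x : MM, x = (ρ g : MM) - ((ρ g : MM).trace / 2) • (1 : MM) := ⟨_, rfl⟩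
  have hxt : x.trace = 0 := by
    rw [hx, Matrix.trace_sub, Matrix.trace_smul, Matrix.trace_one]
    simp
  have Rx : ∀ Z, R Z → R (x * Z) := fun Z hZ => by
    have e : x * Z = (ρ g : MM) * Z - ((tg / 2 : ℚ) : ℂ) • Z := by
      rw [hx, sub_mul, smul_mul_assoc, one_mul, htg]
      push_cast
      rfl
    rw [e]
    exact Rsub _ _ (RM g Z hZ) (Rsmul _ Z hZ)
  obtain ⟨a, haq⟩ : ∃ a : ℚ, a = tg ^ 2 / 4 - 1 := ⟨_, rfl⟩
  have hac : (a : ℂ) = (tg : ℂ) ^ 2 / 4 - 1 := by rw [haq]; push_cast; ring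
  have hx2 : x * x = (a : ℂ) • (1 : MM) := by
    have e : x * x = (ρ g : MM) * (ρ g : MM) - (tg : ℂ) • (ρ g : MM) +
        ((tg : ℂ) ^ 2 / 4) • (1 : MM) := by
      rw [hx, htg]
      simp only [sub_mul, mul_sub, smul_mul_assoc, mul_smul_comm, one_mul, mul_one, smul_sub,
        smul_smul]
      have e2 : (tg : ℂ) • (ρ g : MM) = ((tg : ℂ) / 2) • (ρ g : MM) +
          ((tg : ℂ) / 2) • (ρ g : MM) := by rw [← add_smul]; congr 1; ring
      have e3 : ((tg : ℂ) ^ 2 / 4) = ((tg : ℂ) / 2 * ((tg : ℂ) / 2)) := by ring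
      rw [e2, e3]
      abel
    rw [e, ch (hd g), htg, hac, sub_smul, one_smul]
    abel
  have ha0c : (a : ℂ) ≠ 0 := by
    rw [hac]
    intro h
    apply hg
    rw [htg]
    linear_combination 4 * h
  have ha0 : a ≠ 0 := by exact_mod_cast ha0c
  obtain ⟨h, hh⟩ := step2 hI ha0c hxt hx2
  obtain ⟨th, hth⟩ := hq h
  obtain ⟨Y, hY⟩ : ∃ Y : MM, Y = (ρ h : MM) - ((ρ h : MM).trace / 2) • (1 : MM) := ⟨_, rfl⟩
  have hh' := hh Y hY
  have hYt : Y.trace = 0 := by
    rw [hY, Matrix.trace_sub, Matrix.trace_smul, Matrix.trace_one]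
    simp
  obtain ⟨c, hc⟩ : ∃ c : ℂ, c = (Y * x).trace / (2 * a) := ⟨_, rfl⟩
  obtain ⟨cq, hcq⟩ : ∃ q : ℚ, c = (q : ℂ) := by
    obtain ⟨r, hr⟩ := Rx 1 R1 h
    refine ⟨r / (2 * a), ?_⟩
    rw [hc, hY, sub_mul, smul_mul_assoc, one_mul, Matrix.trace_sub, Matrix.trace_smul, hxt]
    rw [mul_one] at hr
    rw [hr]
    push_cast
    simp
  rw [← hc] at hh'
  obtain ⟨y, hy⟩ : ∃ y : MM, y = Y - c • x := ⟨_, rfl⟩
  rw [← hy] at hh'
  have hyt : y.trace = 0 := by rw [hy, Matrix.trace_sub, Matrix.trace_smul, hYt, hxt]; simp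
  have hyx : (x * y).trace = 0 := by
    rw [hy, mul_sub, Matrix.trace_sub, mul_smul_comm, Matrix.trace_smul, hx2,
      Matrix.trace_smul, Matrix.trace_one, Matrix.trace_mul_comm x Y, hc]
    simp only [Fintype.card_fin, smul_eq_mul]
    push_cast
    field_simp
    ring
  have hxy : x * y = -(y * x) := by
    have := anti hxt hyt
    rw [hyx, zero_smul] at this
    exact eq_neg_of_add_eq_zero_left this
  have Ry : ∀ Z, R Z → R (y * Z) := fun Z hZ => by
    have e : y * Z = (ρ h : MM) * Z - ((th / 2 : ℚ) : ℂ) • Z - (cq : ℂ) • (x * Z) := by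
      rw [hy, hY, sub_mul, sub_mul, smul_mul_assoc, one_mul, smul_mul_assoc, hth, hcq]
      push_cast
      rfl
    rw [e]
    exact Rsub _ _ (Rsub _ _ (RM h Z hZ) (Rsmul _ Z hZ)) (Rsmul _ _ (Rx Z hZ))
  obtain ⟨bq, hbq⟩ : ∃ q : ℚ, (y * y).trace = (q : ℂ) := by
    obtain ⟨r, hr⟩ := Ry _ (Ry 1 R1) 1
    refine ⟨r, ?_⟩
    rw [← hr, map_one, Units.val_one, one_mul, mul_one]
  obtain ⟨b, hb⟩ : ∃ b : ℚ, b = bq / 2 := ⟨_, rfl⟩
  have hbc : (b : ℂ) = (bq : ℂ) / 2 := by rw [hb]; push_cast; ring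
  have hy2 : y * y = (b : ℂ) • (1 : MM) := by
    rw [sq_of_trace hyt, hbq, hbc]
  have hb0c : (b : ℂ) ≠ 0 := by
    rw [hbc, ← hbq]
    exact div_ne_zero hh' two_ne_zero
  have hb0 : b ≠ 0 := by exact_mod_cast hb0c
  refine ⟨a, b, x, y, ⟨ha0, hb0, hx2, hy2, hxy⟩, fun k => ?_⟩
  obtain ⟨q0, e0⟩ := R1 k
  obtain ⟨q1, e1⟩ := Rx 1 R1 k
  obtain ⟨q2, e2⟩ := Ry 1 R1 k
  obtain ⟨q3, e3⟩ := Rx _ (Ry 1 R1) k
  rw [mul_one] at e0 e1 e2 e3
  refine ⟨q0 / 2, q1 / (2 * a), q2 / (2 * b), -q3 / (2 * a * b), ?_⟩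
  have := coords ha0c hb0c hx2 hy2 hxy hxt hyt hyx (ρ k : MM)
  rw [e0, e1, e2, e3] at this
  rw [this]
  unfold qel
  push_cast
  rfl

end Pool.Agent.R693.SU
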