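import Pool.Agent.R693.SU.HOMown

set_option autoImplicit false

open Matrix

namespace Pool.Agent.R693.SU.SPLown

open HOMown

variable {a b : ℚ} {x y : Matrix (Fin 2) (Fin 2) ℂ}

lemma smul_cancel {w : Fin 2 → ℂ} (hw : w ≠ 0) {c d : ℂ} (h : c • w = d • w) : c = d := by
  have : (c - d) • w = 0 := by rw [sub_smul, h, sub_self]
  rcases smul_eq_zero.1 this with h1 | h1
  · exact sub_eq_zero.1 h1
  · exact absurd h1 hw

lemma case1 (h : QB a b x y) (r s z : ℚ) (hs : s ≠ 0) (hz : z ^ 2 = a * r ^ 2 + b * s ^ 2) :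
    ∃ A : GL (Fin 2) ℂ, ∀ α β γ δ : ℚ, ∃ R : Matrix (Fin 2) (Fin 2) ℚ,
      (A⁻¹ : GL (Fin 2) ℂ).val * qel x y α β γ δ * A.val = R.map (algebraMap ℚ ℂ) := by
  have hsC : (s : ℂ) ≠ 0 := by exact_mod_cast hs
  have hzC : (z : ℂ) ^ 2 = a * r ^ 2 + b * s ^ 2 := by exact_mod_cast hz
  have hq : qel x y z r s 0 ≠ 0 := by
    intro h0
    have h1 : qel x y z r s 0 = qel x y 0 0 0 0 := by rw [h0]; simp [qel]
    exact hs (qel_inj h h1).2.2.1
  have hv : ∃ v0, qel x y z r s 0 *ᵥ v0 ≠ 0 := by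
    by_contra hno
    push_neg at hno
    apply hq
    ext i j
    have := congrFun (hno (Pi.single j 1)) i
    simpa using this
  obtain ⟨v0, hw⟩ := hv
  set w := qel x y z r s 0 *ᵥ v0 with hwdef
  have hp : ((r : ℂ) • x + (s : ℂ) • y) * qel x y z r s 0 = (z : ℂ) • qel x y z r s 0 := by
    have e1 : (r : ℂ) • x + (s : ℂ) • y = qel x y 0 r s 0 := by simp [qel]
    rw [e1, qel_mul h]
    simp only [qel]
    push_cast
    have e2 : (0 : ℂ) * z + a * r * r + b * s * s - a * b * 0 * 0 = z * z := by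
      linear_combination -hzC
    rw [e2]
    module
  have hpw : ((r : ℂ) • x + (s : ℂ) • y) *ᵥ w = (z : ℂ) • w := by
    rw [hwdef, Matrix.mulVec_mulVec, hp, Matrix.smul_mulVec]
  set u := x *ᵥ w with hu
  have f2 : x *ᵥ u = (a : ℂ) • w := by
    rw [hu, Matrix.mulVec_mulVec, h.hx, Matrix.smul_mulVec, Matrix.one_mulVec]
  have f3 : y *ᵥ w = (z / s : ℂ) • w - (r / s : ℂ) • u := by
    rw [Matrix.add_mulVec, Matrix.smul_mulVec, Matrix.smul_mulVec, ← hu] at hpw
    have e1 : (s : ℂ) • (y *ᵥ w) = (z : ℂ) • w - (r : ℂ) • u := by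
      rw [← hpw]; abel
    have e2 : y *ᵥ w = (s : ℂ)⁻¹ • ((s : ℂ) • (y *ᵥ w)) := by
      rw [smul_smul, inv_mul_cancel₀ hsC, one_smul]
    rw [e2, e1, smul_sub, smul_smul, smul_smul]
    congr 2 <;> ring
  have f4 : y *ᵥ u = (r * a / s : ℂ) • w - (z / s : ℂ) • u := by
    rw [hu, Matrix.mulVec_mulVec, yx h, Matrix.neg_mulVec, ← Matrix.mulVec_mulVec, f3,
      Matrix.mulVec_sub, Matrix.mulVec_smul, Matrix.mulVec_smul, f2, ← hu, smul_smul]
    have : (r / s : ℂ) * a = r * a / s := by ring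
    rw [this]
    abel
  have hdet : w 0 * u 1 - u 0 * w 1 ≠ 0 := by
    intro h0
    have hc : ∃ c : ℂ, u = c • w := by
      by_cases hw0 : w 0 = 0
      · have hw1 : w 1 ≠ 0 := by
          intro hw1
          apply hw
          ext i
          fin_cases i
          · exact hw0
          · exact hw1
        refine ⟨u 1 / w 1, ?_⟩
        ext i
        fin_cases i
        · have : u 0 * w 1 = 0 := by rw [hw0] at h0; linear_combination -h0
          have := (mul_eq_zero.1 this).resolve_right hw1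
          simp [this, hw0]
        · simp [hw1]
      · refine ⟨u 0 / w 0, ?_⟩
        ext i
        fin_cases i
        · simp [hw0]
        · simp
          field_simp
          linear_combination h0
    obtain ⟨c, hc⟩ := hc
    have g1 : x *ᵥ w = c • w := by rw [← hu]; exact hc
    have g2 : y *ᵥ w = (z / s - r / s * c : ℂ) • w := by
      rw [f3, hc, smul_smul, ← sub_smul]
    set d : ℂ := (z / s - r / s * c : ℂ) with hd
    have g3 : c * c = a := by
      apply smul_cancel hw
      rw [← f2, hc, Matrix.mulVec_smul, g1, smul_smul]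
    have g4 : d * d = b := by
      apply smul_cancel hw
      have : y *ᵥ (y *ᵥ w) = (b : ℂ) • w := by
        rw [Matrix.mulVec_mulVec, h.hy, Matrix.smul_mulVec, Matrix.one_mulVec]
      rw [← this, g2, Matrix.mulVec_smul, g2, smul_smul]
    have g5 : c * d = -(c * d) := by
      apply smul_cancel hw
      have k1 : (x * y) *ᵥ w = (c * d) • w := by
        rw [← Matrix.mulVec_mulVec, g2, Matrix.mulVec_smul, g1, smul_smul, mul_comm]
      have k2 : (y * x) *ᵥ w = (c * d) • w := by
        rw [← Matrix.mulVec_mulVec, g1, Matrix.mulVec_smul, g2, smul_smul]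
      calc (c * d) • w = (x * y) *ᵥ w := k1.symm
        _ = -((y * x) *ᵥ w) := by rw [h.hxy, Matrix.neg_mulVec]
        _ = (-(c * d)) • w := by rw [k2, neg_smul]
    have g6 := half g5
    rcases mul_eq_zero.1 g6 with h1 | h1
    · rw [h1, mul_zero] at g3; exact haC h g3.symm
    · rw [h1, mul_zero] at g4; exact hbC h g4.symm
  let A0 : Matrix (Fin 2) (Fin 2) ℂ := !![w 0, u 0; w 1, u 1]
  have hA0 : A0.det ≠ 0 := by
    simp only [A0, Matrix.det_fin_two_of]
    intro h0
    apply hdet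
    linear_combination h0
  let Rx : Matrix (Fin 2) (Fin 2) ℚ := !![0, a; 1, 0]
  let Ry : Matrix (Fin 2) (Fin 2) ℚ := !![z / s, r * a / s; -(r / s), -(z / s)]
  have hx : x * A0 = A0 * Rx.map (algebraMap ℚ ℂ) := by
    have p0 := congrFun hu 0
    have p1 := congrFun hu 1
    have q0 := congrFun f2 0
    have q1 := congrFun f2 1
    simp only [Matrix.mulVec, dotProduct, Fin.sum_univ_two, Pi.smul_apply, smul_eq_mul] at p0 p1 q0 q1
    ext i j
    fin_cases i <;> fin_cases j <;>
      simp [A0, Rx, Matrix.mul_apply, Fin.sum_univ_two]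
    · linear_combination -p0
    · linear_combination q0
    · linear_combination -p1
    · linear_combination q1
  have hy : y * A0 = A0 * Ry.map (algebraMap ℚ ℂ) := by
    have p0 := congrFun f3 0
    have p1 := congrFun f3 1
    have q0 := congrFun f4 0
    have q1 := congrFun f4 1
    simp only [Matrix.mulVec, dotProduct, Fin.sum_univ_two, Pi.smul_apply, Pi.sub_apply,
      smul_eq_mul] at p0 p1 q0 q1
    ext i j
    fin_cases i <;> fin_cases j <;>
      simp [A0, Ry, Matrix.mul_apply, Fin.sum_univ_two]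
    · linear_combination p0
    · linear_combination q0
    · linear_combination p1
    · linear_combination q1
  let A : GL (Fin 2) ℂ := Matrix.GeneralLinearGroup.mkOfDetNeZero A0 hA0
  have hAv : A.val = A0 := rfl
  have hinv : ∀ (M : Matrix (Fin 2) (Fin 2) ℂ) (R : Matrix (Fin 2) (Fin 2) ℂ), M * A0 = A0 * R →
      (A⁻¹ : GL (Fin 2) ℂ).val * M * A.val = R := by
    intro M R hM
    rw [hAv, mul_assoc, hM, ← mul_assoc, ← hAv, ← Units.val_mul, inv_mul_cancel, Units.val_one,
      one_mul]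
  refine ⟨A, fun α β γ δ => ⟨α • 1 + β • Rx + γ • Ry + δ • (Rx * Ry), ?_⟩⟩
  apply hinv
  have hxy : x * y * A0 = A0 * (Rx * Ry).map (algebraMap ℚ ℂ) := by
    rw [Matrix.map_mul, mul_assoc, hy, ← mul_assoc, hx, mul_assoc]
  have hmap : (α • (1 : Matrix (Fin 2) (Fin 2) ℚ) + β • Rx + γ • Ry + δ • (Rx * Ry)).map
      (algebraMap ℚ ℂ) = (α : ℂ) • 1 + (β : ℂ) • Rx.map (algebraMap ℚ ℂ) +
        (γ : ℂ) • Ry.map (algebraMap ℚ ℂ) + (δ : ℂ) • (Rx * Ry).map (algebraMap ℚ ℂ) := by
    ext i j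
    simp only [Matrix.map_apply, Matrix.add_apply, Matrix.smul_apply, smul_eq_mul, map_add,
      map_mul, eq_ratCast]
    congr 3
    by_cases hij : i = j
    · subst hij; simp
    · simp [Matrix.one_apply_ne hij]
  rw [hmap]
  simp only [qel, add_mul, mul_add, Matrix.smul_mul, Matrix.mul_smul, one_mul, mul_one, hx, hy, hxy]

theorem piece : S_SPL := by
  intro a b x y h r s z hne hz
  by_cases hs : s = 0
  · by_cases hr : r = 0
    · exfalso
      apply hne
      refine ⟨hr, hs, ?_⟩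
      rw [hr, hs] at hz
      have : z ^ 2 = 0 := by rw [hz]; ring
      exact pow_eq_zero_iff (two_ne_zero) |>.1 this
    · have h' : QB b a y x := ⟨h.hb, h.ha, h.hy, h.hx, yx h⟩
      obtain ⟨A, hA⟩ := case1 h' s r z hr (by rw [hz]; ring)
      refine ⟨A, fun α β γ δ => ?_⟩
      obtain ⟨R, hR⟩ := hA α γ β (-δ)
      refine ⟨R, ?_⟩
      rw [← hR]
      congr 2
      simp only [qel, yx h]
      push_cast
      module
  · exact case1 h r s z hs hz

end Pool.Agent.R693.SU.SPLown
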