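import Mathlib

/-!
# Groups with exactly one irreducible representation in each dimension: exact statements of the pieces
-/

set_option autoImplicit false

open Matrix

namespace Pool.Agent.R693.SU

universe u

/-- Irreducibility of a representation on `ℂ^n`, `n > 0`. -/
def Irr {G : Type u} [Group G] {n : ℕ} (ρ : G →* GL (Fin n) ℂ) : Prop :=
  0 < n ∧ ∀ W : Submodule ℂ (Fin n → ℂ),
    (∀ g, ∀ w ∈ W, (ρ g : Matrix (Fin n) (Fin n) ℂ) *ᵥ w ∈ W) → W = ⊥ ∨ W = ⊤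

/-- Property (U): exactly one irreducible representation in each dimension, up to conjugacy. -/
def PropU (G : Type u) [Group G] : Prop := ∀ n : ℕ, 1 ≤ n →
  ∃ ρ : G →* GL (Fin n) ℂ, Irr ρ ∧ ∀ ρ' : G →* GL (Fin n) ℂ, Irr ρ' →
    ∃ A : GL (Fin n) ℂ, ∀ g, ρ' g = A * ρ g * A⁻¹

/-- Piece SU-AUT: the fixed field of `Aut ℂ` is `ℚ`. -/
def S_AUT : Prop := ∀ z : ℂ, (∀ σ : ℂ ≃+* ℂ, σ z = z) → ∃ q : ℚ, (q : ℂ) = z

/-- Piece SU-PERF: a group without nontrivial characters to `ℂˣ` is perfect. -/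
def S_PERF : Prop := ∀ (G : Type u) [Group G], (∀ χ : G →* ℂˣ, ∀ g, χ g = 1) → commutator G = ⊤

/-- Relations of a quaternion basis in the complex matrices. -/
structure QB (a b : ℚ) (x y : Matrix (Fin 2) (Fin 2) ℂ) : Prop where
  ha : a ≠ 0
  hb : b ≠ 0
  hx : x * x = (a : ℂ) • 1
  hy : y * y = (b : ℂ) • 1
  hxy : x * y = -(y * x)

/-- The element with the given coordinates. -/
noncomputable def qel (x y : Matrix (Fin 2) (Fin 2) ℂ) (α β γ δ : ℚ) : Matrix (Fin 2) (Fin 2) ℂ :=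
  (α : ℂ) • 1 + (β : ℂ) • x + (γ : ℂ) • y + (δ : ℂ) • (x * y)

/-- Piece SU-QB: rational traces give a rational quaternion basis. -/
def S_QB : Prop := ∀ (G : Type u) [Group G] (ρ : G →* GL (Fin 2) ℂ), Irr ρ →
  (∀ g, (ρ g : Matrix (Fin 2) (Fin 2) ℂ).det = 1) →
  (∀ g, ∃ q : ℚ, (ρ g : Matrix (Fin 2) (Fin 2) ℂ).trace = (q : ℂ)) →
  ∃ (a b : ℚ) (x y : Matrix (Fin 2) (Fin 2) ℂ), QB a b x y ∧
    ∀ g, ∃ α β γ δ : ℚ, (ρ g : Matrix (Fin 2) (Fin 2) ℂ) = qel x y α β γ δ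

/-- Piece SU-LEG: Legendre's theorem without the real place. -/
def S_LEG : Prop := ∀ a b : ℚ, a ≠ 0 → b ≠ 0 →
  (∀ x y z : ℚ, z ^ 2 = a * x ^ 2 + b * y ^ 2 → x = 0 ∧ y = 0 ∧ z = 0) →
  ∃ (p : ℕ) (_ : Fact p.Prime), ∀ x y z : ℚ_[p],
    z ^ 2 = (a : ℚ_[p]) * x ^ 2 + (b : ℚ_[p]) * y ^ 2 → x = 0 ∧ y = 0 ∧ z = 0

/-- Piece SU-TR: in a division quaternion algebra over `ℚ_p` an element of integral norm has
integral trace. -/
def S_TR : Prop := ∀ (p : ℕ) [Fact p.Prime] (a b : ℚ_[p]), a ≠ 0 → b ≠ 0 →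
  (∀ x y z : ℚ_[p], z ^ 2 = a * x ^ 2 + b * y ^ 2 → x = 0 ∧ y = 0 ∧ z = 0) →
  ∀ q : QuaternionAlgebra ℚ_[p] a 0 b,
    ‖q.re ^ 2 - a * q.imI ^ 2 - b * q.imJ ^ 2 + a * b * q.imK ^ 2‖ ≤ 1 → ‖2 * q.re‖ ≤ 1

/-- Piece SU-LOC (may assume `S_TR`): a perfect group has no nontrivial homomorphism to the norm
one group of a division quaternion algebra over `ℚ_p`. -/
def S_LOC : Prop := ∀ (p : ℕ) [Fact p.Prime] (a b : ℚ_[p]), a ≠ 0 → b ≠ 0 →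
  (∀ x y z : ℚ_[p], z ^ 2 = a * x ^ 2 + b * y ^ 2 → x = 0 ∧ y = 0 ∧ z = 0) →
  ∀ (G : Type u) [Group G], commutator G = ⊤ →
    ∀ f : G →* QuaternionAlgebra ℚ_[p] a 0 b, (∀ g, f g * star (f g) = 1) → ∀ g, f g = 1

/-- Piece SU-SPL: in the split case the span of the quaternion basis is conjugate to rational
matrices. -/
def S_SPL : Prop := ∀ (a b : ℚ) (x y : Matrix (Fin 2) (Fin 2) ℂ), QB a b x y →
  ∀ r s z : ℚ, ¬ (r = 0 ∧ s = 0 ∧ z = 0) → z ^ 2 = a * r ^ 2 + b * s ^ 2 →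
    ∃ A : GL (Fin 2) ℂ, ∀ α β γ δ : ℚ, ∃ R : Matrix (Fin 2) (Fin 2) ℚ,
      (A⁻¹ : GL (Fin 2) ℂ).val * qel x y α β γ δ * A.val = R.map (algebraMap ℚ ℂ)

/-- Piece SU-HOM: the homomorphism to the quaternion algebra over an extension field. -/
def S_HOM : Prop := ∀ (K : Type) [Field K] [CharZero K] (G : Type u) [Group G]
  (ρ : G →* GL (Fin 2) ℂ) (a b : ℚ) (x y : Matrix (Fin 2) (Fin 2) ℂ), QB a b x y →
  (∀ g, (ρ g : Matrix (Fin 2) (Fin 2) ℂ).det = 1) →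
  (∀ g, ∃ α β γ δ : ℚ, (ρ g : Matrix (Fin 2) (Fin 2) ℂ) = qel x y α β γ δ) →
  ∃ f : G →* QuaternionAlgebra K (a : K) 0 (b : K), (∀ g, f g * star (f g) = 1) ∧
    ∀ g, f g = 1 → ρ g = 1

/-- The final statement: the irreducible representation of dimension 2 is rational. -/
def S_FINAL : Prop := ∀ (G : Type u) [Group G], PropU G →
  commutator G = ⊤ ∧ ∃ φ : G →* SpecialLinearGroup (Fin 2) ℚ,
    Irr ((SpecialLinearGroup.toGL.comp (SpecialLinearGroup.map (algebraMap ℚ ℂ))).comp φ) ∧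
    ∀ ρ : G →* GL (Fin 2) ℂ, Irr ρ → φ.ker = ρ.ker

end Pool.Agent.R693.SU
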