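import Mathlib
import Pool.Agent.R693.SU.Stm

set_option autoImplicit false

open Polynomial

namespace Pool.Agent.R693.SU.TRc

open Pool.Agent.R693.SU

theorem hensel_sq (p : ℕ) [Fact p.Prime] (t n : ℚ_[p]) (hn : ‖n‖ ≤ 1) (ht : 1 < ‖t‖) :
    ∃ s : ℚ_[p], s ^ 2 = t ^ 2 - 4 * n ∧ s ≠ 0 := by
  have ht0 : t ≠ 0 := by
    rintro rfl
    rw [norm_zero] at ht
    linarith
  have hc : ‖n / t ^ 2‖ < 1 := by
    rw [norm_div, norm_pow, div_lt_one (by positivity)]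
    nlinarith
  let c : ℤ_[p] := ⟨n / t ^ 2, hc.le⟩
  have hcn : ‖c‖ < 1 := hc
  have hH := hensels_lemma (p := p) (R := ℤ_[p]) (F := (X ^ 2 - X + C c : ℤ_[p][X])) (a := 0)
    (by simpa using hcn)
  obtain ⟨z, hz, hz1, -⟩ := hH
  have hz' : z ^ 2 - z + c = 0 := by simpa using hz
  have hzn : ‖z‖ < 1 := by simpa using hz1
  have hzq : (z : ℚ_[p]) ^ 2 - z + n / t ^ 2 = 0 := by
    have := congrArg (fun w : ℤ_[p] => (w : ℚ_[p])) hz'
    simpa [c] using this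
  refine ⟨t * (1 - 2 * z), ?_, ?_⟩
  · have h1 : n = t ^ 2 * (z - (z : ℚ_[p]) ^ 2) := by
      field_simp at hzq
      linear_combination hzq
    rw [h1]
    ring
  · refine mul_ne_zero ht0 ?_
    intro h0
    have h1 : (2 : ℤ_[p]) * z = 1 := by
      have h2 : (2 : ℚ_[p]) * z = 1 := by linear_combination -h0
      apply PadicInt.ext
      push_cast
      exact h2
    have h3 : ‖(2 : ℤ_[p]) * z‖ < 1 := by
      rw [norm_mul]
      have h4 : ‖(2 : ℤ_[p])‖ ≤ 1 := PadicInt.norm_le_one _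
      nlinarith [norm_nonneg z, norm_nonneg (2 : ℤ_[p])]
    rw [h1, norm_one] at h3
    exact lt_irrefl _ h3

theorem tr : S_TR := by
  intro p _ a b ha hb h q hq
  by_contra hc
  push Not at hc
  obtain ⟨s, hs, hs0⟩ := hensel_sq p _ _ hq hc
  obtain ⟨w, rfl⟩ : ∃ w : ℚ_[p], s = 2 * w := ⟨s / 2, by ring⟩
  have hw0 : w ≠ 0 := by
    rintro rfl
    simp at hs0
  have hw : w ^ 2 = a * q.imI ^ 2 + b * q.imJ ^ 2 - a * b * q.imK ^ 2 := by
    have h4 : (4 : ℚ_[p]) ≠ 0 := by norm_num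
    apply mul_left_cancel₀ h4
    linear_combination hs
  have h1 := h (w * q.imK + q.imI * q.imJ) (q.imJ ^ 2 - a * q.imK ^ 2)
    (w * q.imJ + a * q.imI * q.imK) (by linear_combination (q.imJ ^ 2 - a * q.imK ^ 2) * hw)
  have h2 := h q.imK 0 q.imJ (by linear_combination h1.2.1)
  have h3 := h q.imI 0 w (by rw [hw, h2.1, h2.2.2]; ring)
  exact hw0 h3.2.2

end Pool.Agent.R693.SU.TRc
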