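import Mathlib
import Pool.Agent.R693.SU.Stm

/-!
SU-TR (MP_c356f3_al): integral norm implies integral trace.
-/

set_option autoImplicit false

namespace Pool.Agent.R693.SU

namespace Trx

/-- the norm form is anisotropic -/
theorem aniso {K : Type*} [Field K] (a b : K)
    (H : ∀ x y z : K, z ^ 2 = a * x ^ 2 + b * y ^ 2 → x = 0 ∧ y = 0 ∧ z = 0)
    (w i j k : K) (h : w ^ 2 - a * i ^ 2 - b * j ^ 2 + a * b * k ^ 2 = 0) :
    w = 0 ∧ i = 0 ∧ j = 0 ∧ k = 0 := by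
  have h1 := H (w * k + i * j) (j ^ 2 - a * k ^ 2) (w * j + a * i * k) (by
    linear_combination (j ^ 2 - a * k ^ 2) * h)
  have h2 : j ^ 2 - a * k ^ 2 = 0 := h1.2.1
  obtain ⟨hk, -, hj⟩ := H k 0 j (by linear_combination h2)
  rw [hk, hj] at h
  obtain ⟨hi, -, hw⟩ := H i 0 w (by linear_combination h)
  exact ⟨hw, hi, hj, hk⟩

/-- Hensel -/
theorem root (p : ℕ) [Fact p.Prime] (c : ℚ_[p]) (hc : ‖c‖ < 1) :
    ∃ y : ℚ_[p], y ^ 2 - y + c = 0 := by
  set c' : ℤ_[p] := ⟨c, hc.le⟩ with hc'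
  obtain ⟨z, hz, -⟩ := hensels_lemma (p := p)
    (F := (Polynomial.X ^ 2 - Polynomial.X + Polynomial.C c' : Polynomial ℤ_[p]))
    (a := (1 : ℤ_[p])) (by
      have e1 : Polynomial.aeval (1 : ℤ_[p])
          (Polynomial.X ^ 2 - Polynomial.X + Polynomial.C c' : Polynomial ℤ_[p]) = c' := by
        simp
      have e2 : Polynomial.aeval (1 : ℤ_[p]) (Polynomial.derivative
          (Polynomial.X ^ 2 - Polynomial.X + Polynomial.C c' : Polynomial ℤ_[p])) = 1 := by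
        simp
      rw [e1, e2, norm_one, one_pow]
      exact hc)
  refine ⟨(z : ℚ_[p]), ?_⟩
  have h2 : z ^ 2 - z + c' = 0 := by simpa using hz
  have h3 := congrArg (fun x : ℤ_[p] => (x : ℚ_[p])) h2
  simpa using h3

end Trx

open Trx in
theorem tr_thm : S_TR := by
  intro p _ a b _ _ H q hq
  by_contra hcon
  push Not at hcon
  set t : ℚ_[p] := 2 * q.re with ht
  set n : ℚ_[p] := q.re ^ 2 - a * q.imI ^ 2 - b * q.imJ ^ 2 + a * b * q.imK ^ 2 with hn
  have ht0 : t ≠ 0 := by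
    intro h0
    rw [h0, norm_zero] at hcon
    linarith
  have hc : ‖n / t ^ 2‖ < 1 := by
    rw [norm_div, norm_pow, div_lt_one (by positivity)]
    calc ‖n‖ ≤ 1 := hq
      _ < ‖t‖ ^ 2 := one_lt_pow₀ hcon two_ne_zero
  obtain ⟨y, hy⟩ := root p (n / t ^ 2) hc
  have h1 : (t * y) ^ 2 - t * (t * y) + n = 0 := by
    have h2 : t ^ 2 * (y ^ 2 - y + n / t ^ 2) = 0 := by rw [hy, mul_zero]
    have h3 : t ^ 2 * (n / t ^ 2) = n := by field_simp
    linear_combination h2 - h3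
  obtain ⟨-, hi, hj, hk⟩ := aniso a b H (t * y - q.re) q.imI q.imJ q.imK (by
    linear_combination h1)
  have hn2 : n = q.re ^ 2 := by
    rw [hn, hi, hj, hk]
    ring
  rw [hn2, norm_pow] at hq
  have h4 : ‖q.re‖ ≤ 1 := by
    by_contra h5
    push Not at h5
    have := one_lt_pow₀ h5 two_ne_zero
    linarith
  have h6 : ‖t‖ ≤ 1 := by
    rw [ht, norm_mul]
    have h7 : ‖(2 : ℚ_[p])‖ ≤ 1 := by
      have := (2 : ℤ_[p]).norm_le_one
      exact_mod_cast this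
    calc ‖(2 : ℚ_[p])‖ * ‖q.re‖ ≤ 1 * 1 := by gcongr
      _ = 1 := one_mul 1
  linarith

end Pool.Agent.R693.SU
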